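import Pool.Agent.E8helper56.TY.Core2

set_option autoImplicit false
set_option linter.unusedSectionVars false

/-!
# What commutes with the tensors of bounded degree commutes with all: the abstract form
-/

open Matrix

noncomputable section

namespace Pool.Agent.E8helper56.TY

open Pool.Agent.E8helper1.TX Pool.Agent.E8helper56.TX

variable {n : Type} [Fintype n] [DecidableEq n] {m : ℕ}

theorem tpow_one1 (g : Matrix n n ℂ) : tpow g 1 = o1 g := by
  ext I J
  simp [tpow, o1]

theorem tens_smul_l {k j : ℕ} (a : ℂ) (A : Op n k) (B : Op n j) :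
    tens (a • A) B = a • tens A B := by
  ext I J
  simp only [tens, Matrix.smul_apply, smul_eq_mul]
  ring

theorem tens_smul_r {k j : ℕ} (a : ℂ) (A : Op n k) (B : Op n j) :
    tens A (a • B) = a • tens A B := by
  ext I J
  simp only [tens, Matrix.smul_apply, smul_eq_mul]
  ring

theorem tens_mul' {k j : ℕ} (A A' : Op n k) (B B' : Op n j) :
    tens A B * tens A' B' = tens (A * A') (B * B') := ten_mul A A' B B'

theorem tens_ne {k j : ℕ} {A : Op n k} {B : Op n j} (hA : A ≠ 0) (hB : B ≠ 0) :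
    tens A B ≠ 0 := by
  obtain ⟨I, J, h1⟩ : ∃ I J, A I J ≠ 0 := by
    by_contra h
    push Not at h
    exact hA (by ext I J; exact h I J)
  obtain ⟨I', J', h2⟩ : ∃ I J, B I J ≠ 0 := by
    by_contra h
    push Not at h
    exact hB (by ext I J; exact h I J)
  intro h
  have h3 := congrFun (congrFun h (Fin.append I I')) (Fin.append J J')
  simp only [tens, Matrix.zero_apply, Fin.append_left, Fin.append_right] at h3
  exact mul_ne_zero h1 h2 h3

theorem vecMulVec_ne {v u : (Fin m → n) → ℂ} (hv : v ≠ 0) (hu : u ≠ 0) :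
    (vecMulVec v u : Op n m) ≠ 0 := by
  obtain ⟨I, hI⟩ := Function.ne_iff.1 hv
  obtain ⟨J, hJ⟩ := Function.ne_iff.1 hu
  intro h
  have h1 := congrFun (congrFun h I) J
  rw [Matrix.vecMulVec_apply, Matrix.zero_apply] at h1
  exact mul_ne_zero hI hJ h1

/-- from the square of an operator to the operator -/
theorem comm_of_square {c : Matrix n n ℂ} {v u : (Fin m → n) → ℂ} (hv : v ≠ 0) (hu : u ≠ 0)
    (hEv : EigV c v) (hEu : EigV cᵀ u)
    (h : tens (vecMulVec v u) (vecMulVec v u) * dpow c (m + m) =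
      dpow c (m + m) * tens (vecMulVec v u) (vecMulVec v u)) :
    (vecMulVec v u : Op n m) * dpow c m = dpow c m * vecMulVec v u := by
  obtain ⟨a, ha⟩ := hEv.2 c rfl
  obtain ⟨b, hb⟩ := hEu.2 cᵀ rfl
  set A : Op n m := vecMulVec v u with hA
  have h1 : dpow c m * A = a • A := by rw [hA, mul_vec, ha, smul_vec]
  have h2 : A * dpow c m = b • A := by
    have h3 : (dpow c m)ᵀ = dpow cᵀ m := by
      ext I J
      rw [Matrix.transpose_apply, dpow_transpose]
    rw [hA, vec_mul, h3, hb, vec_smul]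
  have hne : tens A A ≠ 0 := tens_ne (vecMulVec_ne hv hu) (vecMulVec_ne hv hu)
  rw [dpow_add_deg, Matrix.mul_add, Matrix.add_mul, tens_mul', tens_mul', tens_mul', tens_mul', h1,
    h2, Matrix.mul_one, Matrix.one_mul, tens_smul_l, tens_smul_r, tens_smul_l, tens_smul_r,
    ← add_smul, ← add_smul] at h
  have h3 : (b + b) - (a + a) = 0 := by
    have h4 : ((b + b) - (a + a)) • tens A A = 0 := by rw [sub_smul, h, sub_self]
    exact (smul_eq_zero.1 h4).resolve_right hne
  have h5 : b = a := by linear_combination h3 / 2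
  rw [h1, h2, h5]

/-- **What commutes with the tensors of degree `M0` commutes with all.** -/
theorem kill_all [Nonempty n] (T : ∀ m, Submodule ℂ (Op n m))
    (htens : ∀ (k j : ℕ) (A : Op n k), A ∈ T k → tens A (1 : Op n j) ∈ T (k + j))
    (p : Matrix n n ℂ) (hp : o1 p ∈ T 1)
    (hL1 : ∀ x : Matrix n n ℂ, (∀ A ∈ T 2, A * dpow x 2 = dpow x 2 * A) →
      ∃ (y z : Matrix n n ℂ) (c : ℂ), x = y + z + c • 1 ∧ y ∈ Ann T ∧ o1 z ∈ T 1 ∧
        ∀ a, o1 a ∈ T 1 → z * a = a * z)
    (hL2 : ∀ (m : ℕ) (A : Op n m), (∀ x ∈ Ann T, A * dpow x m = dpow x m * A) →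
      A * tpow p m = tpow p m * A → A ∈ T m)
    (w : ℕ) (hw : 1 ≤ w) (L0 : Set (Matrix n n ℂ)) (hL0 : ∀ x ∈ L0, IsInt w x)
    (hL0A : ∀ x ∈ L0, x ∈ Ann T)
    (hdet : ∀ (k : ℕ) (c : Matrix n n ℂ) (v u : (Fin k → n) → ℂ), o1 c ∈ T 1 → v ≠ 0 → u ≠ 0 →
      EigV c v → EigV cᵀ u →
      (∀ x ∈ L0, vecMulVec v u * dpow x k = dpow x k * vecMulVec v u) →
      tens (vecMulVec v u) (vecMulVec v u) ∈ T (k + k))
    (M0 : ℕ) (hM0 : M0 = 2 * ((Fintype.card n).factorial * w ^ (Fintype.card n - 1)))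
    (hstar : ∀ A ∈ T M0, Aᴴ ∈ T M0) (x : Matrix n n ℂ)
    (hx : ∀ A ∈ T M0, A * dpow x M0 = dpow x M0 * A) : x ∈ Ann T := by
  have hM2 : 2 ≤ M0 := by
    rw [hM0]
    have h1 : 0 < (Fintype.card n).factorial * w ^ (Fintype.card n - 1) :=
      Nat.mul_pos (Nat.factorial_pos _) (pow_pos (by omega) _)
    omega
  -- the larger Lie algebra
  let LS : Set (Matrix n n ℂ) := {y | ∀ A ∈ T M0, A * dpow y M0 = dpow y M0 * A}
  have hAS : ∀ y ∈ Ann T, y ∈ LS := fun y hy A hA => hy M0 A hA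
  have hlow : ∀ y ∈ LS, ∀ k ≤ M0, ∀ A ∈ T k, A * dpow y k = dpow y k * A := by
    intro y hy k hk A hA
    obtain ⟨j, rfl⟩ := Nat.exists_eq_add_of_le hk
    exact comm_down (hy _ (htens k j A hA))
  have hsub : ∀ y ∈ LS, ∀ y' ∈ LS, y - y' ∈ LS := by
    intro y hy y' hy' A hA
    have h1 : dpow (y - y') M0 = dpow y M0 - dpow y' M0 := by
      have h2 : y - y' = y + (-1 : ℂ) • y' := by rw [neg_one_smul, sub_eq_add_neg]
      rw [h2, TX.dpow_add, TX.dpow_smul, neg_one_smul, sub_eq_add_neg]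
    rw [h1, Matrix.mul_sub, Matrix.sub_mul, hy A hA, hy' A hA]
  have hLstar : ∀ y ∈ LS, yᴴ ∈ LS := by
    intro y hy A hA
    have h1 := congrArg Matrix.conjTranspose (hy Aᴴ (hstar A hA))
    rw [Matrix.conjTranspose_mul, Matrix.conjTranspose_mul, Matrix.conjTranspose_conjTranspose] at h1
    rw [dpow_star]
    exact h1.symm
  have hT1 : ∀ y ∈ LS, ∀ a, o1 a ∈ T 1 → a * y = y * a := by
    intro y hy a ha
    exact (o1_comm a y).1 (hlow y hy 1 (by omega) _ ha)
  have hbr : ∀ y ∈ LS, ∀ y' ∈ LS, y * y' - y' * y ∈ Ann T := by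
    intro y hy y' hy'
    obtain ⟨a, z, c, hyz, ha, hz1, hz⟩ := hL1 y (hlow y hy 2 hM2)
    obtain ⟨a', z', c', hyz', ha', hz1', hz'⟩ := hL1 y' (hlow y' hy' 2 hM2)
    have h1 : a * z' = z' * a := (hT1 a (hAS a ha) z' hz1').symm
    have h2 : a' * z = z * a' := (hT1 a' (hAS a' ha') z hz1).symm
    have h3 : z * z' = z' * z := hz z' hz1'
    have h4 : y * y' - y' * y = a * a' - a' * a := by
      rw [hyz, hyz']
      simp only [Matrix.add_mul, Matrix.mul_add, Matrix.smul_mul, Matrix.mul_smul, Matrix.one_mul,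
        Matrix.mul_one, h1, h2, h3, smul_add]
      rw [smul_comm c c']
      abel
    rw [h4]
    exact Ann_lie ha ha'
  -- the projection
  obtain ⟨P, hP1, hP2⟩ := exists_proj (Ann T)
  set c : Matrix n n ℂ := x - P x with hc
  have hcS : c ∈ LS := hsub x hx _ (hAS _ (hP1 x))
  have horth : ∀ z ∈ Ann T, (zᴴ * c).trace = 0 := fun z hz => hP2 x z hz
  have hcomm : ∀ a ∈ LS, c * a = a * c := by
    intro a ha
    set b : Matrix n n ℂ := c * a - a * c with hb
    have hbA : b ∈ Ann T := hbr c hcS a ha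
    have h1 : b * aᴴ - aᴴ * b ∈ Ann T := hbr b (hAS b hbA) aᴴ (hLstar a ha)
    have h2 := horth _ h1
    have h3 : (bᴴ * b).trace = ((b * aᴴ - aᴴ * b)ᴴ * c).trace := by
      have h4 : (b * aᴴ - aᴴ * b)ᴴ = a * bᴴ - bᴴ * a := by
        rw [Matrix.conjTranspose_sub, Matrix.conjTranspose_mul, Matrix.conjTranspose_mul,
          Matrix.conjTranspose_conjTranspose]
      rw [h4, Matrix.sub_mul, Matrix.trace_sub]
      have h5 : (a * bᴴ * c).trace = (bᴴ * (c * a)).trace := by
        rw [Matrix.mul_assoc, Matrix.trace_mul_comm a, Matrix.mul_assoc]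
      rw [h5]
      conv_lhs => rw [hb]
      rw [Matrix.mul_sub, Matrix.trace_sub, ← hb, ← Matrix.mul_assoc bᴴ a]
    have h6 : b = 0 := eq_zero_of_trace b (by rw [h3, h2])
    exact sub_eq_zero.1 h6
  have hcT : o1 c ∈ T 1 := by
    refine hL2 1 _ (fun y hy => ?_) ?_
    · exact (o1_comm c y).2 (hcomm y (hAS y hy))
    · rw [tpow_one1, o1_mul, o1_mul, hT1 c hcS p hp]
  have hzero : c = 0 := by
    refine core_n w hw L0 hL0 c (hcomm _ (hLstar c hcS)) (fun y hy => (hcomm y (hAS y (hL0A y hy))).symm)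
      (fun y hy => ?_) ?_ ?_
    · have h1 := congrArg star (horth y (hL0A y hy))
      rw [← Matrix.trace_conjTranspose, Matrix.conjTranspose_mul,
        Matrix.conjTranspose_conjTranspose, star_zero] at h1
      exact h1
    · have h1 := horth 1 (by
        have h := kills_scalar T 1
        rwa [one_smul] at h)
      rwa [Matrix.conjTranspose_one, Matrix.one_mul] at h1
    · intro k hk v u hv hu hEv hEu hL
      have h1 := hdet k c v u hcT hv hu hEv hEu hL
      exact comm_of_square hv hu hEv hEu (hlow c hcS (k + k) (by omega) _ h1)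
  rw [hc, sub_eq_zero] at hzero
  rw [hzero]
  exact hP1 x

end Pool.Agent.E8helper56.TY
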