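import Pool.Agent.E8helper56.TY.Val

set_option autoImplicit false
set_option linter.unusedSectionVars false

/-!
# The slopes of Weil numbers
-/

open IsDedekindDomain NumberField Polynomial

noncomputable section

namespace Pool.Agent.E8helper56.TY

theorem dvd_fact {n B : ℕ} (hn : 0 < n) (h : n.totient ≤ B) : n ∣ (2 * B).factorial := by
  rw [Nat.dvd_iff_prime_pow_dvd_dvd]
  intro q k hq hk
  rcases Nat.eq_zero_or_pos k with rfl | hk0
  · simp
  refine Nat.dvd_factorial (pow_pos hq.pos _) ?_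
  have h2 := Nat.le_of_dvd (Nat.totient_pos.2 hn) (Nat.totient_dvd_of_dvd hk)
  rw [Nat.totient_prime_pow hq hk0] at h2
  obtain ⟨j, rfl⟩ : ∃ j, k = j + 1 := ⟨k - 1, by omega⟩
  rw [Nat.add_sub_cancel] at h2
  rw [pow_succ]
  obtain ⟨r, rfl⟩ : ∃ r, q = r + 1 := ⟨q - 1, by have := hq.pos; omega⟩
  have h3 : 1 ≤ r := by
    have := hq.two_le
    omega
  rw [Nat.add_sub_cancel] at h2
  nlinarith [Nat.zero_le ((r + 1) ^ j)]

theorem pow_rexp {L : Type} [Field L] [NumberField L] {x : L} {k : ℕ} (hk : 0 < k)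
    (hx : x ^ k = 1) {B : ℕ} (hB : Module.finrank ℚ L ≤ B) : x ^ (2 * B).factorial = 1 := by
  have hn : 0 < orderOf x := orderOf_pos_iff.2 (isOfFinOrder_iff_pow_eq_one.2 ⟨k, hk, hx⟩)
  have hprim : IsPrimitiveRoot x (orderOf x) := IsPrimitiveRoot.orderOf x
  have h1 : (orderOf x).totient ≤ B := by
    have h2 := Polynomial.cyclotomic_eq_minpoly_rat hprim hn
    have h3 := congrArg Polynomial.natDegree h2
    rw [Polynomial.natDegree_cyclotomic] at h3
    rw [h3]
    exact (minpoly.natDegree_le x).trans hB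
  exact orderOf_dvd_iff_pow_eq_one.1 (dvd_fact hn h1)

/-- The numbers `(α ^ 2 / p ^ i) ^ e`, where `α` is a root of `P i`. -/
def IsW {d : ℕ} (p e : ℕ) (P : Fin (2 * d + 1) → ℤ[X]) (lam : ℂ) : Prop :=
  ∃ (i : Fin (2 * d + 1)) (α : ℂ), aeval α (P i) = 0 ∧ lam * (p : ℂ) ^ ((i : ℕ) * e) = α ^ (2 * e)

section field

variable {L : Type} [Field L] [NumberField L]

theorem conj_root (P : ℤ[X]) {r : ℂ} (h : aeval r P = 0) : aeval ((starRingEnd ℂ) r) P = 0 := by
  have h1 := congrArg (starRingEnd ℂ) h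
  rw [map_zero] at h1
  have h2 : (starRingEnd ℂ) (aeval r P) = aeval ((starRingEnd ℂ) r) P := by
    rw [aeval_def, aeval_def, hom_eval₂]
    congr 1
    exact RingHom.ext_int _ _
  rw [← h2, h1]

theorem slopes_field (ι₀ : L →+* ℂ) (d e p B : ℕ) (he : 0 < e) (hp : p.Prime)
    (P : Fin (2 * d + 1) → ℤ[X]) (hmon : ∀ i, (P i).Monic)
    (hroot : ∀ i (r : ℂ), aeval r (P i) = 0 → ‖r‖ ^ 2 = (p : ℝ) ^ (i : ℕ))
    (hB : Module.finrank ℚ L ≤ B)
    (hL : ∀ i (r : ℂ), aeval r (P i) = 0 → ∃ x : L, ι₀ x = r) :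
    ∃ Λ : Set (Additive ℂˣ →+ ℂ),
      (∀ s ∈ Λ, ∀ lam : ℂˣ, IsW p e P lam → ∃ z : ℤ, |z| ≤ ((2 * d + 1) * B : ℕ) ∧
        s (Additive.ofMul lam) = z) ∧
      ∀ u ∈ Subgroup.closure {lam : ℂˣ | IsW p e P lam}, (∀ s ∈ Λ, s (Additive.ofMul u) = 0) →
        u ^ (2 * B).factorial = 1 := by
  have hp0 : (p : ℂ) ≠ 0 := by exact_mod_cast hp.ne_zero
  have hpL : (p : L) ≠ 0 := by exact_mod_cast hp.ne_zero
  have he0 : (e : ℂ) ≠ 0 := by exact_mod_cast he.ne'
  -- lifts
  have haev : ∀ (σ : L →+* ℂ) i (x : L), aeval (σ x) (P i) = 0 ↔ aeval x (P i) = 0 := by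
    intro σ i x
    have h2 : σ (aeval x (P i)) = aeval (σ x) (P i) := by
      rw [aeval_def, aeval_def, hom_eval₂]
      congr 1
      exact RingHom.ext_int _ _
    rw [← h2, map_eq_zero]
  have hlift : ∀ lam : ℂˣ, IsW p e P lam → ∃ (i : Fin (2 * d + 1)) (a b x : Lˣ),
      aeval (a : L) (P i) = 0 ∧ aeval (b : L) (P i) = 0 ∧ (a : L) * b = (p : L) ^ (i : ℕ) ∧
      Units.map (ι₀ : L →* ℂ) x = lam ∧ (x : L) * (p : L) ^ ((i : ℕ) * e) = (a : L) ^ (2 * e) := by
    rintro lam ⟨i, α, hα, hlam⟩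
    obtain ⟨a, ha⟩ := hL i α hα
    obtain ⟨b, hb⟩ := hL i _ (conj_root _ hα)
    have hab : a * b = (p : L) ^ (i : ℕ) := by
      apply ι₀.injective
      rw [map_mul, ha, hb, map_pow, map_natCast, Complex.mul_conj, Complex.normSq_eq_norm_sq,
        hroot i α hα]
      push_cast
      rfl
    have ha0 : a ≠ 0 := by
      rintro rfl
      rw [zero_mul] at hab
      exact pow_ne_zero _ hpL hab.symm
    have hb0 : b ≠ 0 := by
      rintro rfl
      rw [mul_zero] at hab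
      exact pow_ne_zero _ hpL hab.symm
    have hx0 : a ^ (2 * e) * ((p : L) ^ ((i : ℕ) * e))⁻¹ ≠ 0 :=
      mul_ne_zero (pow_ne_zero _ ha0) (inv_ne_zero (pow_ne_zero _ hpL))
    refine ⟨i, Units.mk0 a ha0, Units.mk0 b hb0, Units.mk0 _ hx0, ?_, ?_, hab, ?_, ?_⟩
    · rw [Units.val_mk0, ← haev ι₀, ha, hα]
    · rw [Units.val_mk0, ← haev ι₀, hb]
      exact conj_root _ hα
    · apply Units.ext
      rw [Units.coe_map, Units.val_mk0]
      change ι₀ _ = _
      rw [map_mul, map_pow, ha, map_inv₀, map_pow, map_natCast, ← hlam, mul_assoc,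
        mul_inv_cancel₀ (pow_ne_zero _ hp0), mul_one]
    · rw [Units.val_mk0, Units.val_mk0, mul_assoc, inv_mul_cancel₀ (pow_ne_zero _ hpL), mul_one]
  let pu : Lˣ := Units.mk0 (p : L) hpL
  have hint : ∀ i (a : Lˣ), aeval (a : L) (P i) = 0 → IsIntegral ℤ (a : L) := fun i a h =>
    ⟨P i, hmon i, by rwa [aeval_def] at h⟩
  have hord : ∀ (v : HeightOneSpectrum (𝓞 L)) (i : ℕ) (a b x : Lˣ), (a : L) * b = (p : L) ^ i →
      (x : L) * (p : L) ^ (i * e) = (a : L) ^ (2 * e) →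
      ordv v (Additive.ofMul a) + ordv v (Additive.ofMul b) = i * ordv v (Additive.ofMul pu) ∧
      ordv v (Additive.ofMul x) = e * (2 * ordv v (Additive.ofMul a) -
        i * ordv v (Additive.ofMul pu)) := by
    intro v i a b x h1 h2
    have h3 : a * b = pu ^ i := Units.ext (by push_cast; exact h1)
    have h4 : x * pu ^ (i * e) = a ^ (2 * e) := Units.ext (by push_cast; exact h2)
    have h5 := congrArg (fun y : Lˣ => ordv v (Additive.ofMul y)) h3
    have h6 := congrArg (fun y : Lˣ => ordv v (Additive.ofMul y)) h4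
    simp only [ofMul_mul, ofMul_pow, map_add, map_nsmul, nsmul_eq_mul] at h5 h6
    refine ⟨h5, ?_⟩
    push_cast at h6
    linarith
  choose s hs using fun v : HeightOneSpectrum (𝓞 L) =>
    exists_ext ι₀ ((AddMonoidHom.mulLeft ((e : ℂ)⁻¹)).comp ((Int.castAddHom ℂ).comp (ordv v)))
  refine ⟨Set.range s, ?_, ?_⟩
  · rintro _ ⟨v, rfl⟩ lam hlam
    obtain ⟨i, a, b, x, ha, hb, hab, hx, hxa⟩ := hlift lam hlam
    obtain ⟨h1, h2⟩ := hord v i a b x hab hxa
    have h3 := ordv_nonneg v (hint i a ha)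
    have h4 := ordv_nonneg v (hint i b hb)
    have h5 : ordv v (Additive.ofMul pu) ≤ B :=
      (ordv_prime v hp (x := pu) rfl).trans (by exact_mod_cast hB)
    have h6 : 0 ≤ ordv v (Additive.ofMul pu) := by
      refine ordv_nonneg v ?_
      change IsIntegral ℤ (p : L)
      have h7 := isIntegral_algebraMap (R := ℤ) (A := L) (x := (p : ℤ))
      rwa [map_natCast] at h7
    refine ⟨2 * ordv v (Additive.ofMul a) - (i : ℕ) * ordv v (Additive.ofMul pu), ?_, ?_⟩
    · have h7 : ((i : ℕ) : ℤ) ≤ 2 * d := by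
        have := i.2
        omega
      have h8 : ((i : ℕ) : ℤ) * ordv v (Additive.ofMul pu) ≤ (2 * d) * B :=
        mul_le_mul h7 h5 h6 (by positivity)
      push_cast
      rw [abs_le]
      constructor <;> nlinarith
    · rw [← hx, hs v x]
      change (e : ℂ)⁻¹ * ((ordv v (Additive.ofMul x) : ℤ) : ℂ) = _
      rw [h2]
      push_cast
      rw [← mul_assoc, inv_mul_cancel₀ he0, one_mul]
  · intro u hu hsu
    obtain ⟨x, hx, hxn⟩ : ∃ x : Lˣ, Units.map (ι₀ : L →* ℂ) x = u ∧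
        ∀ σ : L →+* ℂ, ‖σ (x : L)‖ = 1 := by
      refine Subgroup.closure_induction (p := fun u _ => ∃ x : Lˣ, Units.map (ι₀ : L →* ℂ) x = u ∧
        ∀ σ : L →+* ℂ, ‖σ (x : L)‖ = 1) ?_ ?_ ?_ ?_ hu
      · intro lam hlam
        obtain ⟨i, a, b, x, ha, hb, hab, hx, hxa⟩ := hlift lam hlam
        refine ⟨x, hx, fun σ => ?_⟩
        have h1 := congrArg (fun y => ‖σ y‖) hxa
        simp only [map_mul, map_pow, map_natCast, norm_mul, norm_pow, Complex.norm_natCast] at h1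
        have h2 := hroot i (σ a) ((haev σ i a).2 ha)
        rw [pow_mul ‖σ a‖, h2, ← pow_mul] at h1
        have h3 : (p : ℝ) ^ ((i : ℕ) * e) ≠ 0 := pow_ne_zero _ (by exact_mod_cast hp.ne_zero)
        exact mul_right_cancel₀ h3 (by rw [h1, one_mul])
      · exact ⟨1, map_one _, fun σ => by rw [Units.val_one, map_one, norm_one]⟩
      · rintro u u' _ _ ⟨x, hx, hxn⟩ ⟨x', hx', hxn'⟩
        refine ⟨x * x', by rw [map_mul, hx, hx'], fun σ => ?_⟩
        rw [Units.val_mul, map_mul, norm_mul, hxn, hxn', one_mul]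
      · rintro u _ ⟨x, hx, hxn⟩
        refine ⟨x⁻¹, by rw [map_inv, hx], fun σ => ?_⟩
        rw [Units.val_inv_eq_inv_val, map_inv₀, norm_inv, hxn, inv_one]
    have hzero : ∀ v : HeightOneSpectrum (𝓞 L), ordv v (Additive.ofMul x) = 0 := by
      intro v
      have h1 := hsu (s v) ⟨v, rfl⟩
      rw [← hx, hs v x] at h1
      have h2 : (e : ℂ)⁻¹ * ((ordv v (Additive.ofMul x) : ℤ) : ℂ) = 0 := h1
      have h3 := (mul_eq_zero.1 h2).resolve_left (inv_ne_zero he0)
      exact_mod_cast h3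
    have hxi : IsIntegral ℤ (x : L) := integral_of_ordv fun v => (hzero v).ge
    obtain ⟨k, hk, hxk⟩ := NumberField.Embeddings.pow_eq_one_of_norm_eq_one L ℂ hxi hxn
    have h1 := pow_rexp hk hxk hB
    have h2 : x ^ (2 * B).factorial = 1 := Units.ext (by push_cast; exact h1)
    rw [← hx, ← map_pow, h2, map_one]

end field

theorem finrank_splitting {F : Type} [Field F] [CharZero F] (Q : F[X]) {N : ℕ}
    (hN : Q.natDegree ≤ N) : Module.finrank F Q.SplittingField ≤ N.factorial := by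
  classical
  have hfact : Fact ((Q.map (algebraMap F Q.SplittingField)).Splits) :=
    ⟨SplittingField.splits Q⟩
  have hG : IsGalois F Q.SplittingField := ⟨⟩
  rw [← IsGalois.card_aut_eq_finrank]
  have h1 := Nat.card_le_card_of_injective _
    (Gal.galActionHom_injective Q Q.SplittingField)
  refine h1.trans ?_
  rw [Nat.card_eq_fintype_card, Fintype.card_perm]
  refine Nat.factorial_le ?_
  refine le_trans ?_ hN
  have h2 : Fintype.card (Q.rootSet Q.SplittingField) = (Q.aroots Q.SplittingField).toFinset.card := by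
    rw [← Set.toFinset_card]
    congr 1
    ext x
    rw [Set.mem_toFinset, rootSet_def, Finset.mem_coe]
  rw [h2]
  refine (Multiset.toFinset_card_le _).trans ?_
  refine (card_roots' _).trans ?_
  exact natDegree_map_le

/-- **The slopes of Weil numbers.** -/
theorem weil_slopes (N d e p : ℕ) (he : 0 < e) (hp : p.Prime)
    (P : Fin (2 * d + 1) → ℤ[X]) (hmon : ∀ i, (P i).Monic) (hdeg : ∑ i, (P i).natDegree ≤ N)
    (hroot : ∀ i (r : ℂ), aeval r (P i) = 0 → ‖r‖ ^ 2 = (p : ℝ) ^ (i : ℕ)) :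
    ∃ Λ : Set (Additive ℂˣ →+ ℂ),
      (∀ s ∈ Λ, ∀ lam : ℂˣ, IsW p e P lam → ∃ z : ℤ, |z| ≤ ((2 * d + 1) * N.factorial : ℕ) ∧
        s (Additive.ofMul lam) = z) ∧
      ∀ u ∈ Subgroup.closure {lam : ℂˣ | IsW p e P lam}, (∀ s ∈ Λ, s (Additive.ofMul u) = 0) →
        u ^ (2 * N.factorial).factorial = 1 := by
  let Q : ℚ[X] := ∏ i, (P i).map (algebraMap ℤ ℚ)
  have hQ0 : Q ≠ 0 := Finset.prod_ne_zero_iff.2 fun i _ => ((hmon i).map _).ne_zero
  have hQd : Q.natDegree ≤ N := by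
    refine le_trans ?_ hdeg
    rw [natDegree_prod_of_monic _ _ fun i _ => (hmon i).map _]
    exact Finset.sum_le_sum fun i _ => natDegree_map_le
  have hnf : NumberField Q.SplittingField := ⟨⟩
  let ι₀ : Q.SplittingField →ₐ[ℚ] ℂ := SplittingField.lift Q (IsAlgClosed.splits _)
  refine slopes_field (L := Q.SplittingField) ι₀.toRingHom d e p N.factorial he hp P hmon hroot
    (by
      convert finrank_splitting Q hQd) ?_
  intro i r hr
  have h1 := (SplittingField.splits Q).image_rootSet ι₀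
  have h2 : r ∈ Q.rootSet ℂ := by
    rw [mem_rootSet]
    refine ⟨hQ0, ?_⟩
    rw [map_prod]
    refine Finset.prod_eq_zero (Finset.mem_univ i) ?_
    rw [aeval_map_algebraMap, hr]
  rw [← h1] at h2
  obtain ⟨x, -, hx⟩ := h2
  exact ⟨x, hx⟩

end Pool.Agent.E8helper56.TY
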