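import Pool.Agent.E8helper1.TX.Asm

/-!
# Frobenius data and the statement of the theorem with type IV, on the level of matrices
-/

set_option autoImplicit false

namespace Pool.Agent.E8helper56.TY

open Matrix Module Pool.Agent.E8helper1.TX
open scoped ComplexOrder

/-- The Frobenius elements, for the normalized action `D.R`: a set `F` of elements whose matrices are
dense in the `M`-th powers, such that the eigenvalues of the matrices are the numbers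
`(α ^ 2 / p ^ i) ^ e`, where `α` are the roots of polynomials `P i` with integral coefficients all whose
complex roots have absolute value `p ^ (i / 2)`. -/
structure FrobData {ℓ : ℕ} [Fact ℓ.Prime] [Algebra ℚ_[ℓ] ℂ] {n : Type} [Fintype n]
    [DecidableEq n] {Γ : Type} [Group Γ] (D : GalData ℓ n Γ) (d : ℕ) where
  F : Set Γ
  M : ℕ
  M_pos : 0 < M
  e : ℕ
  e_pos : 0 < e
  dense : ∀ (g : Γ) (ε : ℝ), 0 < ε → ∃ γ ∈ F, ∀ i j, ‖D.R γ i j - D.R (g ^ M) i j‖ < ε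
  weil : ∀ γ ∈ F, ∃ (p : ℕ) (P : Fin (2 * d + 1) → Polynomial ℤ), p.Prime ∧
    (∀ i, (P i).Monic) ∧ ∑ i, (P i).natDegree ≤ Fintype.card n ∧
    (∀ i (r : ℂ), Polynomial.aeval r (P i) = 0 → ‖r‖ ^ 2 = (p : ℝ) ^ (i : ℕ)) ∧
    ∀ lam : ℂ, ((D.R γ).map (algebraMap ℚ_[ℓ] ℂ)).charpoly.IsRoot lam →
      ∃ (i : Fin (2 * d + 1)) (α : ℂ), Polynomial.aeval α (P i) = 0 ∧
        lam * (p : ℂ) ^ ((i : ℕ) * e) = α ^ (2 * e)

/-- The degree. -/
def M5 (N d : ℕ) : ℕ := 2 * (N.factorial * ((2 * d + 1) * N.factorial) ^ (N - 1))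

/-- **The theorem with type IV on the level of matrices.** -/
def S_ASM5 : Prop := ∀ (ℓ : ℕ) [Fact ℓ.Prime] [Algebra ℚ_[ℓ] ℂ] (n : Type) [Fintype n]
  [DecidableEq n] (Γ : Type) [Group Γ] (D : GalData ℓ n Γ) (d : ℕ) (_ : FrobData D d)
  (S : ∀ m, Submodule ℚ_[ℓ] (Matrix (Fin m → n) (Fin m → n) ℚ_[ℓ])) (P0 : PSys0 n)
  (_ : ∀ m, P0.S m = bcM ℚ_[ℓ] (S m)) (Q : Matrix n n ℂ) (_ : Q.PosDef)
  (_ : ∀ m, ∀ A ∈ P0.S m, tpow Q⁻¹ m * Aᴴ * tpow Q m ∈ P0.S m)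
  (_ : (D.p.map (algebraMap ℚ_[ℓ] ℂ))ᴴ * Q = Q * D.p.map (algebraMap ℚ_[ℓ] ℂ))
  (_ : ∀ m, S m ≤ PotOp D.R D.p m) (_ : Nonempty n),
  (PotOp D.R D.p (M5 (Fintype.card n) d) ≤ S (M5 (Fintype.card n) d) →
    ∀ m, finrank ℚ_[ℓ] (PotOp D.R D.p m) ≤
      (2 * Fintype.card n * M5 (Fintype.card n) d) ^ (2 * Fintype.card n ^ 2) *
        finrank ℚ_[ℓ] (S m)) ∧
  ∀ m : ℕ, (Fintype.card n : ℝ) ^ 3 * (M5 (Fintype.card n) d : ℝ) ^ 2 *
      Real.log (2 * Fintype.card n * M5 (Fintype.card n) d + 1) ≤ m → PotOp D.R D.p m ≤ S m →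
    ∀ j, PotOp D.R D.p j = S j

end Pool.Agent.E8helper56.TY
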