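import Pool.Agent.E8helper56.TY.Det
import Pool.Agent.E8helper56.TY.Weil
import Pool.Agent.E8helper26.TX.TRF

set_option autoImplicit false
set_option linter.unusedSectionVars false

/-!
# The theorem with type IV on the level of matrices
-/

open Matrix Module

namespace Pool.Agent.E8helper56.TY

open Pool.Agent.E8helper1.TX Pool.Agent.E8helper56.TX Pool.Agent.E8helper41.TX
open Pool.Agent.E8helper63.TX (t_DIM1 t_DIM2)
open Pool.Agent.E8helper1.CT
open Pool.Agent.E8helper1.AP (Jb exists_jb fK fK_unit)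

theorem t_ASM5 : S_ASM5 := by
  intro ℓ _ _ n _ _ Γ _ D d W S P0 hP0 Q hQ hstar hpQ hle hn
  classical
  obtain ⟨P, Tt, hP, hPQP, hTS⟩ := Pool.Agent.E8helper26.TX.t_TRF n P0 Q hQ hstar
  have hST : ∀ m, Tt.S m ≤ TC D P m := by
    intro m
    rw [hTS m, hP0 m]
    exact Submodule.map_mono (bcM_mono (hle m))
  let J : ∀ γ : Γ, Jb (Matrix.toLin' ((D.R γ).map (algebraMap ℚ_[ℓ] ℂ))) := fun γ =>
    Classical.choice (exists_jb _)
  have hweil : ∀ γ ∈ W.F, ∃ (Λ : Set (Additive ℂˣ →+ ℂ)) (V : Set ℂˣ),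
      (∀ q, ∀ h : (J γ).lam q ≠ 0, Units.mk0 ((J γ).lam q) h ∈ V) ∧
      (∀ s ∈ Λ, ∀ lam ∈ V, ∃ z : ℤ, |z| ≤ ((2 * d + 1) * (Fintype.card n).factorial : ℕ) ∧
        s (Additive.ofMul lam) = z) ∧
      ∀ u ∈ Subgroup.closure V, (∀ s ∈ Λ, s (Additive.ofMul u) = 0) →
        u ^ (2 * (Fintype.card n).factorial).factorial = 1 := by
    intro γ hγ
    obtain ⟨p, Pi, hp, hmon, hdeg, hroot, hchar⟩ := W.weil γ hγ
    obtain ⟨Λ, h1, h2⟩ := weil_slopes (Fintype.card n) d W.e p W.e_pos hp Pi hmon hdeg hroot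
    exact ⟨Λ, {lam : ℂˣ | IsW p W.e Pi lam}, fun q h => hchar _ (lam_root (J γ) q), h1, h2⟩
  choose! Λ V hV1 hV2 hV3 using hweil
  have hlam : ∀ γ q, (J γ).lam q ≠ 0 := fun γ => lam_ne (J γ) (RC_inj D γ)
  have hpp : D.p.map (algebraMap ℚ_[ℓ] ℂ) * D.p.map (algebraMap ℚ_[ℓ] ℂ) = 1 := by
    rw [← map_mul', D.p_mul, Matrix.map_one _ (map_zero _) (map_one _)]
  have hfac : 1 ≤ (Fintype.card n).factorial := Nat.factorial_pos _
  have main := all_tate Tt (TC D P) hST (TC_tens hP D) (cj P D.p)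
    (parity_unitary hP hQ.1 hPQP hpQ hpp) (TC_p hP D) (TC_fixes hP D) (TC_L1 hP D) (TC_L2 hP D)
    ((2 * d + 1) * (Fintype.card n).factorial) (by nlinarith)
    {x | ∃ γ ∈ W.F, ∃ s ∈ Λ γ, x = P⁻¹ * slopM (J γ) s * P}
    (by
      rintro _ ⟨γ, hγ, s, hs, rfl⟩
      refine slope_int hP (J γ) s _ fun q => ?_
      obtain ⟨z, hz1, hz2⟩ := hV2 γ hγ s hs _ (hV1 γ hγ q (hlam γ q))
      exact ⟨z, hz1, (fK_unit s (Units.mk0 _ (hlam γ q))).trans hz2⟩)
    (by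
      rintro _ ⟨γ, hγ, s, hs, rfl⟩
      exact slope_ann D hP γ (J γ) s)
    (by
      intro k c v u hc hv hu hEv hEu hL
      refine det_char hP D W.F W.M W.M_pos W.dense (2 * (Fintype.card n).factorial).factorial
        (Nat.factorial_pos _) k c v u hc hv hu hEv hEu ?_
      intro γ hγ j a b ha hb e1 e2
      exact key_gamma hP D γ k _ (vecMulVec_ne hv hu) j a b ha hb e1 e2 (J γ) (Λ γ)
        (fun s hs => hL _ ⟨γ, hγ, s, hs, rfl⟩) (V γ) (hV1 γ hγ) _ (hV3 γ hγ))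
    (M5 (Fintype.card n) d) rfl
  have hmono : ∀ m, PotOp D.R D.p m ≤ S m → TC D P m ≤ Tt.S m := by
    intro m h
    rw [hTS m, hP0 m]
    exact Submodule.map_mono (bcM_mono h)
  constructor
  · intro h m
    have h1 := main.1 (hmono _ h) m
    have e1 : finrank ℂ (TC D P m) = finrank ℚ_[ℓ] (PotOp D.R D.p m) := by
      rw [TC, finrank_map_cjm hP, t_DIM1]
    have e2 : finrank ℂ (Tt.S m) = finrank ℚ_[ℓ] (S m) := by
      rw [hTS m, finrank_map_cjm hP, hP0 m, t_DIM1]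
    rwa [e1, e2] at h1
  · intro m hm hTm j
    have h3 := main.2 m hm (hmono _ hTm) j
    refine le_antisymm ?_ (hle j)
    rw [TC, hTS j, hP0 j] at h3
    have h4 : bcM ℚ_[ℓ] (PotOp D.R D.p j) = bcM ℚ_[ℓ] (S j) :=
      Submodule.map_injective_of_injective (cjm_inj hP) h3
    intro M hM
    exact t_DIM2 ℚ_[ℓ] (Fin j → n) (S j) M (h4.le (mem_bcM hM))

end Pool.Agent.E8helper56.TY
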