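import Pool.Agent.E8helper56.TY.Kill
import Pool.Agent.E8helper41.TX.Asm

set_option autoImplicit false
set_option linter.unusedSectionVars false

/-!
# One bounded tensor power decides: the abstract form with a disconnected group
-/

open Matrix

noncomputable section

namespace Pool.Agent.E8helper56.TY

open Pool.Agent.E8helper1.TX Pool.Agent.E8helper56.TX
open Pool.Agent.E8helper41.TX (skew_all)

variable {n : Type} [Fintype n] [DecidableEq n] {m : ℕ}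

/-- smaller degrees -/
theorem down [Nonempty n] (S : TSys n) (T : ∀ m, Submodule ℂ (Op n m))
    (htens : ∀ (k j : ℕ) (A : Op n k), A ∈ T k → tens A (1 : Op n j) ∈ T (k + j)) {m : ℕ}
    (h : T m ≤ S.S m) {k : ℕ} (hk : k ≤ m) : T k ≤ S.S k := by
  obtain ⟨j, rfl⟩ := Nat.exists_eq_add_of_le hk
  intro A hA
  have h1 := S.ptr_mem (h (htens k j A hA))
  rw [ptr_tens] at h1
  have h2 := (S.S k).smul_mem (((Fintype.card n : ℂ) ^ j)⁻¹) h1
  rwa [smul_smul, inv_mul_cancel₀ (card_ne j), one_smul] at h2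

theorem le_bound {N M0 : ℕ} (hN : 1 ≤ N) (hM2 : 2 ≤ M0) {m : ℕ}
    (hm : (N : ℝ) ^ 3 * (M0 : ℝ) ^ 2 * Real.log (2 * N * M0 + 1) ≤ m) : M0 ≤ m := by
  have h1 : (M0 : ℝ) ≤ m := by
    refine le_trans ?_ hm
    have h2 : (1 : ℝ) ≤ N := by exact_mod_cast hN
    have h3 : (2 : ℝ) ≤ M0 := by exact_mod_cast hM2
    have h4 : 1 ≤ Real.log (2 * N * M0 + 1) := by
      rw [Real.le_log_iff_exp_le (by positivity)]
      have h5 := Real.exp_one_lt_d9
      nlinarith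
    have h5 : (1 : ℝ) ≤ (N : ℝ) ^ 3 := one_le_pow₀ (by linarith)
    have h6 : (M0 : ℝ) ≤ (M0 : ℝ) ^ 2 := by nlinarith
    have h7 : (M0 : ℝ) ≤ (N : ℝ) ^ 3 * (M0 : ℝ) ^ 2 := by nlinarith
    nlinarith
  exact_mod_cast h1

/-- **One bounded tensor power decides**, the abstract form. -/
theorem all_tate [Nonempty n] (S : TSys n) (T : ∀ m, Submodule ℂ (Op n m))
    (hST : ∀ m, S.S m ≤ T m)
    (htens : ∀ (k j : ℕ) (A : Op n k), A ∈ T k → tens A (1 : Op n j) ∈ T (k + j))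
    (p : Matrix n n ℂ) (hpu : p ∈ Matrix.unitaryGroup n ℂ) (hp : o1 p ∈ T 1) (hTp : Fixes T p)
    (hL1 : ∀ x : Matrix n n ℂ, (∀ A ∈ T 2, A * dpow x 2 = dpow x 2 * A) →
      ∃ (y z : Matrix n n ℂ) (c : ℂ), x = y + z + c • 1 ∧ y ∈ Ann T ∧ o1 z ∈ T 1 ∧
        ∀ a, o1 a ∈ T 1 → z * a = a * z)
    (hL2 : ∀ (m : ℕ) (A : Op n m), (∀ x ∈ Ann T, A * dpow x m = dpow x m * A) →
      A * tpow p m = tpow p m * A → A ∈ T m)
    (w : ℕ) (hw : 1 ≤ w) (L0 : Set (Matrix n n ℂ)) (hL0 : ∀ x ∈ L0, IsInt w x)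
    (hL0A : ∀ x ∈ L0, x ∈ Ann T)
    (hdet : ∀ (k : ℕ) (c : Matrix n n ℂ) (v u : (Fin k → n) → ℂ), o1 c ∈ T 1 → v ≠ 0 → u ≠ 0 →
      EigV c v → EigV cᵀ u →
      (∀ x ∈ L0, vecMulVec v u * dpow x k = dpow x k * vecMulVec v u) →
      tens (vecMulVec v u) (vecMulVec v u) ∈ T (k + k))
    (M0 : ℕ) (hM0 : M0 = 2 * ((Fintype.card n).factorial * w ^ (Fintype.card n - 1))) :
    (T M0 ≤ S.S M0 → ∀ m, Module.finrank ℂ (T m) ≤
      (2 * Fintype.card n * M0) ^ (2 * Fintype.card n ^ 2) * Module.finrank ℂ (S.S m)) ∧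
    ∀ m : ℕ, (Fintype.card n : ℝ) ^ 3 * (M0 : ℝ) ^ 2 * Real.log (2 * Fintype.card n * M0 + 1) ≤ m →
      T m ≤ S.S m → ∀ k, T k = S.S k := by
  have hM2 : 2 ≤ M0 := by
    rw [hM0]
    have h1 : 0 < (Fintype.card n).factorial * w ^ (Fintype.card n - 1) :=
      Nat.mul_pos (Nat.factorial_pos _) (pow_pos (by omega) _)
    omega
  have hkill : T M0 ≤ S.S M0 → ∀ x : Matrix n n ℂ,
      (∀ A ∈ T M0, A * dpow x M0 = dpow x M0 * A) → x ∈ Ann T := by
    intro hTM x hx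
    exact kill_all T htens p hp hL1 hL2 w hw L0 hL0 hL0A hdet M0 hM0
      (fun A hA => hST M0 (S.star_mem (hTM hA))) x hx
  have hkillS : T M0 ≤ S.S M0 → ∀ x : Matrix n n ℂ, xᴴ = -x →
      (∀ A ∈ S.S M0, A * dpow x M0 = dpow x M0 * A) → Kills T x :=
    fun hTM x _ hx => hkill hTM x fun A hA => hx A (hTM hA)
  refine ⟨fun hTM m => uni3' M0 hM2 S T (hkillS hTM) m, fun m hm hT k => ?_⟩
  have hMm : M0 ≤ m := le_bound Fintype.card_pos hM2 hm
  have hTM := down S T htens hT hMm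
  refine uni3 M0 hM2 S T hST (hkillS hTM) (fun j A hA => ?_) m hm hT k
  -- the double commutant
  refine hL2 j A (fun x hx => ?_) (hA p hpu (fun i B hB => hTp i B (hST i hB)) hTp)
  refine skew_all A (fun x => x ∈ Ann T) (fun x y a b hx hy => (Ann T).add_mem
    ((Ann T).smul_mem a hx) ((Ann T).smul_mem b hy)) (fun x hx => ?_) (fun y hy hyT => ?_) x hx
  · refine hkill hTM _ fun B hB => ?_
    have h1 := congrArg Matrix.conjTranspose (hx M0 Bᴴ (hST M0 (S.star_mem (hTM hB))))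
    rw [Matrix.conjTranspose_mul, Matrix.conjTranspose_mul, Matrix.conjTranspose_conjTranspose] at h1
    rw [dpow_star]
    exact h1.symm
  · obtain ⟨g, hgu, hg1, hg2⟩ := exp_lemma y hy j
    exact hg2 A (hA g hgu (fun i B hB => hg1 i B (hyT i B (hST i hB)))
      (fun i B hB => hg1 i B (hyT i B hB)))

end Pool.Agent.E8helper56.TY
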