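import Pool.Agent.E8helper1.TX.Defs
import Pool.Agent.E8helper63.TX.Dim

set_option autoImplicit false
set_option linter.unusedSectionVars false

/-!
# Polynomial functions on matrices over a topological field with complex values
-/

open Matrix

noncomputable section

namespace Pool.Agent.E8helper56.TY

open Pool.Agent.E8helper1.TX

section pf

variable (K : Type) [Field K] [TopologicalSpace K] [IsTopologicalRing K] [Algebra K ℂ]
  {X : Type} [TopologicalSpace X]

/-- Finite sums of complex multiples of continuous functions with values in `K`. -/
inductive PF : (X → ℂ) → Prop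
  | base (b : ℂ) (c : X → K) (hc : Continuous c) : PF (fun x => b * algebraMap K ℂ (c x))
  | add (f g : X → ℂ) : PF f → PF g → PF (fun x => f x + g x)

variable {K}

theorem PF.const (b : ℂ) : PF K (fun _ : X => b) := by
  have h := PF.base (K := K) (X := X) b (fun _ => 1) continuous_const
  simpa using h

theorem PF.alg (c : X → K) (hc : Continuous c) : PF K (fun x => algebraMap K ℂ (c x)) := by
  have h := PF.base (K := K) (X := X) 1 c hc
  simpa using h

theorem PF.mul {f g : X → ℂ} (hf : PF K f) (hg : PF K g) : PF K (fun x => f x * g x) := by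
  induction hf with
  | base b c hc =>
    induction hg with
    | base b' c' hc' =>
      have h := PF.base (K := K) (X := X) (b * b') (fun x => c x * c' x) (hc.mul hc')
      have e : (fun x => b * algebraMap K ℂ (c x) * (b' * algebraMap K ℂ (c' x))) =
          fun x => b * b' * algebraMap K ℂ (c x * c' x) := by
        funext x
        rw [map_mul]
        ring
      rw [e]
      exact h
    | add f g _ _ hf hg =>
      have h := PF.add _ _ hf hg
      have e : (fun x => b * algebraMap K ℂ (c x) * (f x + g x)) =
          fun x => b * algebraMap K ℂ (c x) * f x + b * algebraMap K ℂ (c x) * g x := by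
        funext x
        ring
      rw [e]
      exact h
  | add f f' _ _ hf hf' =>
    have h := PF.add _ _ hf hf'
    have e : (fun x => (f x + f' x) * g x) = fun x => f x * g x + f' x * g x := by
      funext x
      ring
    rw [e]
    exact h

theorem PF.sum {ι : Type} (s : Finset ι) {f : ι → X → ℂ} (hf : ∀ i, PF K (f i)) :
    PF K (fun x => ∑ i ∈ s, f i x) := by
  classical
  induction s using Finset.induction_on with
  | empty =>
    simp only [Finset.sum_empty]
    exact PF.const 0
  | insert a s ha ih =>
    simp only [Finset.sum_insert ha]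
    exact PF.add _ _ (hf a) ih

theorem PF.prod {ι : Type} (s : Finset ι) {f : ι → X → ℂ} (hf : ∀ i, PF K (f i)) :
    PF K (fun x => ∏ i ∈ s, f i x) := by
  classical
  induction s using Finset.induction_on with
  | empty =>
    simp only [Finset.prod_empty]
    exact PF.const 1
  | insert a s ha ih =>
    simp only [Finset.prod_insert ha]
    exact PF.mul (hf a) ih

theorem PF.pow {f : X → ℂ} (hf : PF K f) (k : ℕ) : PF K (fun x => f x ^ k) := by
  induction k with
  | zero =>
    simp only [pow_zero]
    exact PF.const 1
  | succ k ih =>
    simp only [pow_succ]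
    exact PF.mul ih hf

theorem PF.slice {f : X → ℂ} (hf : PF K f) (l : ℂ →ₗ[K] K) : Continuous (fun x => l (f x)) := by
  induction hf with
  | base b c hc =>
    have e : (fun x => l (b * algebraMap K ℂ (c x))) = fun x => c x * l b := by
      funext x
      rw [mul_comm, ← Algebra.smul_def, map_smul, smul_eq_mul]
    rw [e]
    exact hc.mul continuous_const
  | add f g _ _ hf hg =>
    simp only [map_add]
    exact hf.add hg

/-- A polynomial function which vanishes on a dense set vanishes. -/
theorem PF.closure [T1Space K] {f : X → ℂ} (hf : PF K f) {S : Set X} (hS : ∀ x ∈ S, f x = 0)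
    {x : X} (hx : x ∈ closure S) : f x = 0 := by
  refine Pool.Agent.E8helper63.TX.exists_dual_ne (K := K) fun l => ?_
  have h1 : IsClosed {y | l (f y) = 0} := isClosed_singleton.preimage (hf.slice l)
  have h2 : S ⊆ {y | l (f y) = 0} := fun y hy => by
    change l (f y) = 0
    rw [hS y hy, map_zero]
  exact closure_minimal h2 h1 hx

/-- matrices of polynomial functions -/
def PFM (K : Type) [Field K] [TopologicalSpace K] [IsTopologicalRing K] [Algebra K ℂ]
    {X : Type} [TopologicalSpace X] {N : Type} (f : X → Matrix N N ℂ) : Prop :=
  ∀ i j, PF K (fun x => f x i j)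

theorem PFM.const {N : Type} (A : Matrix N N ℂ) : PFM K (fun _ : X => A) :=
  fun _ _ => PF.const _

theorem PFM.mul {N : Type} [Fintype N] {f g : X → Matrix N N ℂ} (hf : PFM K f) (hg : PFM K g) :
    PFM K (fun x => f x * g x) := by
  intro i j
  simp only [Matrix.mul_apply]
  exact PF.sum _ fun k => (hf i k).mul (hg k j)

theorem PFM.pow {N : Type} [Fintype N] [DecidableEq N] {f : X → Matrix N N ℂ} (hf : PFM K f)
    (k : ℕ) : PFM K (fun x => f x ^ k) := by
  induction k with
  | zero =>
    simp only [pow_zero]
    exact PFM.const 1
  | succ k ih =>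
    simp only [pow_succ]
    exact PFM.mul ih hf

theorem PFM.transpose {N : Type} {f : X → Matrix N N ℂ} (hf : PFM K f) :
    PFM K (fun x => (f x)ᵀ) := fun i j => hf j i

theorem PFM.tpow {n : Type} [Fintype n] [DecidableEq n] {f : X → Matrix n n ℂ} (hf : PFM K f)
    (m : ℕ) : PFM K (fun x => tpow (f x) m) := by
  intro I J
  exact PF.prod _ fun i => hf (I i) (J i)

theorem PFM.mulVec {N : Type} [Fintype N] {f : X → Matrix N N ℂ} (hf : PFM K f) (v : N → ℂ)
    (i : N) : PF K (fun x => (f x *ᵥ v) i) := by
  exact PF.sum _ fun k => (hf i k).mul (PF.const _)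

end pf

/-- the matrices themselves -/
theorem PFM.map {K : Type} [Field K] [TopologicalSpace K] [IsTopologicalRing K] [Algebra K ℂ]
    {N : Type} : PFM K (fun x : N → N → K => Matrix.map x (algebraMap K ℂ)) := by
  intro i j
  exact PF.alg (fun x : N → N → K => x i j) ((continuous_apply j).comp (continuous_apply i))

end Pool.Agent.E8helper56.TY
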