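import Pool.Agent.E8helper56.TX.Torus
import Pool.Agent.E8helper56.TX.NoIV
import Pool.Agent.E8helper1.AP.Slope

set_option autoImplicit false
set_option linter.unusedSectionVars false

/-!
# The central part of the Lie algebra is detected by determinant vectors
-/

open Matrix

open scoped ComplexOrder

noncomputable section

namespace Pool.Agent.E8helper56.TY

open Pool.Agent.E8helper1.TX Pool.Agent.E8helper56.TX
open Pool.Agent.E8helper1.AP (Jb exists_jb)

variable {n : Type} [Fintype n] [DecidableEq n] {m : ℕ}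

/-! ### Determinant vectors under the group -/

variable {B : Type} [DecidableEq B]

/-- the matrix of the action -/
def xM (β : Fin m → B) (pr : Fin m → n) (x : Matrix n n ℂ) : Matrix (Fin m) (Fin m) ℂ :=
  fun p'' p' => if β p'' = β p' then x (pr p'') (pr p') else 0

theorem dM_mul {α : Type} {γ : n → α} {β : Fin m → B} {pr : Fin m → n}
    (hinj : ∀ p p', β p = β p' → pr p = pr p' → p = p')
    (hcomp : ∀ p a, γ a = γ (pr p) → ∃ p', β p' = β p ∧ pr p' = a)
    {x : Matrix n n ℂ} (hx : ∀ i j, γ i ≠ γ j → x i j = 0) (I : Fin m → n) (p : Fin m) :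
    (∑ a, x (I p) a • fun p' => if β p = β p' ∧ a = pr p' then (1 : ℂ) else 0) =
      (dM β pr I * xM β pr x) p := by
  set X : Matrix (Fin m) (Fin m) ℂ := xM β pr x with hX
  funext p'
  rw [Finset.sum_apply, Matrix.mul_apply]
  simp only [Pi.smul_apply, smul_eq_mul]
  by_cases h1 : β p = β p'
  · have e1 : (∑ a, x (I p) a * if β p = β p' ∧ a = pr p' then (1 : ℂ) else 0) =
        x (I p) (pr p') := by
      rw [Finset.sum_eq_single (pr p')]
      · rw [if_pos ⟨h1, rfl⟩, mul_one]
      · intro a _ ha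
        rw [if_neg (fun h => ha h.2), mul_zero]
      · intro h
        exact absurd (Finset.mem_univ _) h
    rw [e1]
    by_cases h2 : ∃ p0, β p0 = β p ∧ pr p0 = I p
    · obtain ⟨p0, hp0, hp0'⟩ := h2
      rw [Finset.sum_eq_single p0]
      · have e2 : dM β pr I p p0 = 1 := if_pos ⟨hp0.symm, hp0'.symm⟩
        have e3 : X p0 p' = x (pr p0) (pr p') := if_pos (hp0.trans h1)
        rw [e2, e3, one_mul, hp0']
      · intro q _ hq
        have e2 : dM β pr I p q = 0 := if_neg fun h => hq (hinj q p0 (h.1.symm.trans hp0.symm)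
          (h.2.symm.trans hp0'.symm))
        rw [e2, zero_mul]
      · intro h
        exact absurd (Finset.mem_univ _) h
    · have e2 : x (I p) (pr p') = 0 := by
        by_contra h3
        have h4 : γ (I p) = γ (pr p') := by
          by_contra h5
          exact h3 (hx _ _ h5)
        obtain ⟨p0, hp0, hp0'⟩ := hcomp p' (I p) h4
        exact h2 ⟨p0, hp0.trans h1.symm, hp0'⟩
      rw [e2]
      symm
      refine Finset.sum_eq_zero fun q _ => ?_
      have e3 : dM β pr I p q = 0 := if_neg fun h => h2 ⟨q, h.1.symm, h.2.symm⟩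
      rw [e3, zero_mul]
  · have e1 : (∑ a, x (I p) a * if β p = β p' ∧ a = pr p' then (1 : ℂ) else 0) = 0 :=
      Finset.sum_eq_zero fun a _ => by rw [if_neg (fun h => h1 h.1), mul_zero]
    rw [e1]
    symm
    refine Finset.sum_eq_zero fun q _ => ?_
    by_cases h2 : β p = β q ∧ I p = pr q
    · have e3 : X q p' = 0 := if_neg fun h => h1 (h2.1.trans h)
      rw [e3, mul_zero]
    · have e3 : dM β pr I p q = 0 := if_neg h2
      rw [e3, zero_mul]

/-- **Determinant vectors are eigenvectors** of the tensor powers of block diagonal matrices. -/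
theorem dv_grp {α : Type} {γ : n → α} {β : Fin m → B} {pr : Fin m → n}
    (hinj : ∀ p p', β p = β p' → pr p = pr p' → p = p')
    (hcomp : ∀ p a, γ a = γ (pr p) → ∃ p', β p' = β p ∧ pr p' = a)
    {x : Matrix n n ℂ} (hx : ∀ i j, γ i ≠ γ j → x i j = 0) :
    ∃ a : ℂ, tpow x m *ᵥ (dv β pr) = a • dv β pr := by
  set X : Matrix (Fin m) (Fin m) ℂ := xM β pr x with hX
  refine ⟨X.det, ?_⟩
  funext I
  rw [Pi.smul_apply, smul_eq_mul, Matrix.mulVec, dotProduct]
  have h1 : (dM β pr I * X).det = ∑ J : Fin m → n, tpow x m I J * dv β pr J := by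
    have h2 : (dM β pr I * X).det = Matrix.detRowAlternating (n := Fin m) (R := ℂ)
        (fun p => ∑ a, x (I p) a • fun p' => if β p = β p' ∧ a = pr p' then (1 : ℂ) else 0) := by
      have h3 : (fun p => ∑ a, x (I p) a • fun p' => if β p = β p' ∧ a = pr p' then (1 : ℂ) else 0) =
          (dM β pr I * X) := by
        funext p
        exact dM_mul hinj hcomp hx I p
      rw [h3]
      rfl
    rw [h2]
    have h4 := MultilinearMap.map_sum
      (Matrix.detRowAlternating (n := Fin m) (R := ℂ)).toMultilinearMap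
      (fun (p : Fin m) (a : n) => x (I p) a • fun p' => if β p = β p' ∧ a = pr p' then (1 : ℂ) else 0)
    refine Eq.trans h4 ?_
    refine Finset.sum_congr rfl fun J _ => ?_
    have h5 := MultilinearMap.map_smul_univ
      (Matrix.detRowAlternating (n := Fin m) (R := ℂ)).toMultilinearMap
      (fun p => x (I p) (J p)) (fun p p' => if β p = β p' ∧ J p = pr p' then (1 : ℂ) else 0)
    refine Eq.trans h5 ?_
    rfl
  rw [← h1, Matrix.det_mul, mul_comm]
  rfl

/-! ### Eigenvectors of a centralizer -/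

/-- The tensor `v` is an eigenvector of everything that commutes with `c`. -/
def EigV (c : Matrix n n ℂ) (v : (Fin m → n) → ℂ) : Prop :=
  (∀ g : Matrix n n ℂ, g * c = c * g → ∃ a : ℂ, tpow g m *ᵥ v = a • v) ∧
    ∀ x : Matrix n n ℂ, x * c = c * x → ∃ a : ℂ, dpow x m *ᵥ v = a • v

theorem eigV_dv {E : Type} {b : n → E} {μ : E → ℂ} (hμ : Function.Injective μ)
    {V W c : Matrix n n ℂ} (hWV : W * V = 1) (hVW : V * W = 1)
    (hc : c = V * diagonal (fun i => μ (b i)) * W) {β : Fin m → B} {pr : Fin m → n}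
    (hinj : ∀ p p', β p = β p' → pr p = pr p' → p = p')
    (hcomp : ∀ p a, b a = b (pr p) → ∃ p', β p' = β p ∧ pr p' = a) :
    EigV c (tpow V m *ᵥ dv β pr) := by
  have hblock : ∀ x, x * c = c * x → ∀ i j, b i ≠ b j → (W * x * V) i j = 0 := by
    intro x hx i j hij
    rw [hc, comm_conj _ _ _ _ hWV hVW, comm_diag] at hx
    by_contra h0
    exact hij (hμ (hx i j h0))
  have hback : ∀ x : Matrix n n ℂ, V * (W * x * V) * W = x := by
    intro x
    calc V * (W * x * V) * W = (V * W) * x * (V * W) := by simp only [Matrix.mul_assoc]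
      _ = x := by rw [hVW, Matrix.one_mul, Matrix.mul_one]
  refine ⟨fun g hg => ?_, fun x hx => ?_⟩
  · obtain ⟨a, ha⟩ := dv_grp hinj hcomp (hblock g hg)
    refine ⟨a, ?_⟩
    rw [Matrix.mulVec_mulVec, tpow_mul]
    have h1 : g * V = V * (W * g * V) := by
      calc g * V = (V * W) * g * V := by rw [hVW, Matrix.one_mul]
        _ = _ := by simp only [Matrix.mul_assoc]
    rw [h1, ← tpow_mul, ← Matrix.mulVec_mulVec, ha, Matrix.mulVec_smul]
  · have h1 := dv_eig hinj hcomp (hblock x hx)
    refine ⟨∑ p, (W * x * V) (pr p) (pr p), ?_⟩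
    have h2 : dpow (W * x * V) m *ᵥ dv β pr =
        (∑ p, (W * x * V) (pr p) (pr p)) • dv β pr := by
      funext I
      exact h1 I
    have h3 : dpow x m * tpow V m = tpow V m * dpow (W * x * V) m := by
      have h4 : tpow V m * dpow (W * x * V) m * tpow W m = dpow x m := by
        rw [tpow_dpow _ _ _ hVW, hback]
      rw [← h4, Matrix.mul_assoc, tpow_mul, hWV, tpow_one', Matrix.mul_one]
    rw [Matrix.mulVec_mulVec, h3, ← Matrix.mulVec_mulVec, h2, Matrix.mulVec_smul]

/-! ### Normal matrices -/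

theorem normal_ker {c : Matrix n n ℂ} (hc : c * cᴴ = cᴴ * c) {v : n → ℂ} (h : c *ᵥ v = 0) :
    cᴴ *ᵥ v = 0 := by
  have h1 : star (cᴴ *ᵥ v) ⬝ᵥ (cᴴ *ᵥ v) = 0 := by
    rw [Matrix.star_mulVec, Matrix.conjTranspose_conjTranspose, ← Matrix.dotProduct_mulVec,
      Matrix.mulVec_mulVec, hc, ← Matrix.mulVec_mulVec, h, Matrix.mulVec_zero, dotProduct_zero]
  exact dotProduct_star_self_eq_zero.1 h1

theorem normal_sub {c : Matrix n n ℂ} (hc : c * cᴴ = cᴴ * c) (μ : ℂ) :
    (c - μ • 1) * (c - μ • 1)ᴴ = (c - μ • 1)ᴴ * (c - μ • 1) := by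
  rw [Matrix.conjTranspose_sub, Matrix.conjTranspose_smul, Matrix.conjTranspose_one]
  simp only [Matrix.sub_mul, Matrix.mul_sub, Matrix.smul_mul, Matrix.mul_smul, Matrix.one_mul,
    Matrix.mul_one, hc, smul_sub, smul_smul]
  rw [mul_comm μ]
  abel

theorem normal_sq {c : Matrix n n ℂ} (hc : c * cᴴ = cᴴ * c) {v : n → ℂ}
    (h : c *ᵥ (c *ᵥ v) = 0) : c *ᵥ v = 0 := by
  have h1 := normal_ker hc h
  have h2 : star (c *ᵥ v) ⬝ᵥ (c *ᵥ v) = 0 := by
    rw [Matrix.star_mulVec, ← Matrix.dotProduct_mulVec, h1, dotProduct_zero]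
  exact dotProduct_star_self_eq_zero.1 h2

theorem normal_pow {c : Matrix n n ℂ} (hc : c * cᴴ = cᴴ * c) (k : ℕ) {v : n → ℂ}
    (h : (c ^ (k + 1)) *ᵥ v = 0) : c *ᵥ v = 0 := by
  induction k with
  | zero => rwa [zero_add, pow_one] at h
  | succ k ih =>
    apply ih
    rw [pow_succ', pow_succ', ← Matrix.mulVec_mulVec, ← Matrix.mulVec_mulVec] at h
    rw [pow_succ', ← Matrix.mulVec_mulVec]
    exact normal_sq hc h

/-- **Normal matrices are diagonalizable**, together with the adjoint. -/
theorem normal_diag (c : Matrix n n ℂ) (hc : c * cᴴ = cᴴ * c) : ∃ (V W : Matrix n n ℂ)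
    (lam : n → ℂ), W * V = 1 ∧ V * W = 1 ∧ c = V * diagonal lam * W ∧
      cᴴ = V * diagonal (fun i => (starRingEnd ℂ) (lam i)) * W := by
  obtain ⟨J⟩ := exists_jb (Matrix.toLin' c)
  have _ := J.fι
  have _ := J.dι
  have hcard : Fintype.card n = Fintype.card J.ι := by
    rw [← Module.finrank_eq_card_basis J.e, Module.finrank_fintype_fun_eq_card]
  let f : n ≃ J.ι := Fintype.equivOfCardEq hcard
  let e : Module.Basis n ℂ (n → ℂ) := J.e.reindex f.symm
  have he : ∀ i, e i = J.e (f i) := by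
    intro i
    simp [e, Module.Basis.reindex_apply]
  have heig : ∀ i, c *ᵥ (e i) = J.lam (f i) • e i := by
    intro i
    have h1 := J.mem (f i)
    rw [Module.End.mem_maxGenEigenspace] at h1
    obtain ⟨k, hk⟩ := h1
    have h2 : ((c - J.lam (f i) • 1) ^ k) *ᵥ (e i) = 0 := by
      rw [he, ← hk]
      have h3 : Matrix.toLin' c - J.lam (f i) • 1 = Matrix.toLin' (c - J.lam (f i) • 1) := by
        rw [map_sub, map_smul, Matrix.toLin'_one]
        rfl
      rw [h3, ← Matrix.toLin'_pow, Matrix.toLin'_apply]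
    rcases k with _ | k
    · rw [pow_zero, Matrix.one_mulVec] at h2
      exact absurd h2 (e.ne_zero i)
    · have h4 := normal_pow (normal_sub hc _) k h2
      rw [Matrix.sub_mulVec, Matrix.smul_mulVec, Matrix.one_mulVec, sub_eq_zero] at h4
      exact h4
  have heig' : ∀ i, cᴴ *ᵥ (e i) = (starRingEnd ℂ) (J.lam (f i)) • e i := by
    intro i
    have h1 : (c - J.lam (f i) • 1) *ᵥ e i = 0 := by
      rw [Matrix.sub_mulVec, Matrix.smul_mulVec, Matrix.one_mulVec, heig, sub_self]
    have h2 := normal_ker (normal_sub hc _) h1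
    rw [Matrix.conjTranspose_sub, Matrix.conjTranspose_smul, Matrix.conjTranspose_one,
      Matrix.sub_mulVec, Matrix.smul_mulVec, Matrix.one_mulVec, sub_eq_zero] at h2
    exact h2
  let V : Matrix n n ℂ := fun i j => e j i
  have hVu : IsUnit V := by
    have h1 : V = (Pi.basisFun ℂ n).toMatrix e := by
      ext i j
      rw [Module.Basis.toMatrix_apply, Pi.basisFun_repr]
    rw [h1]
    have h2 := (Pi.basisFun ℂ n).toMatrix_mul_toMatrix_flip e
    have h3 := e.toMatrix_mul_toMatrix_flip (Pi.basisFun ℂ n)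
    exact ⟨⟨_, _, h2, h3⟩, rfl⟩
  have hVd : IsUnit V.det := (Matrix.isUnit_iff_isUnit_det V).1 hVu
  have hdiag : ∀ (A : Matrix n n ℂ) (l : n → ℂ), (∀ i, A *ᵥ (e i) = l i • e i) →
      A = V * diagonal l * V⁻¹ := by
    intro A l h
    have h1 : A * V = V * diagonal l := by
      ext i j
      have h2 := congrFun (h j) i
      rw [Matrix.mul_diagonal, Matrix.mul_apply]
      rw [Pi.smul_apply, smul_eq_mul, Matrix.mulVec, dotProduct] at h2
      change ∑ k, A i k * e j k = e j i * l j
      rw [h2, mul_comm]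
    rw [← h1, Matrix.mul_assoc, Matrix.mul_nonsing_inv _ hVd, Matrix.mul_one]
  exact ⟨V, V⁻¹, fun i => J.lam (f i), Matrix.nonsing_inv_mul _ hVd, Matrix.mul_nonsing_inv _ hVd,
    hdiag c _ heig, hdiag cᴴ _ heig'⟩

/-- the fibres of a complex function -/
theorem exists_fib' (lam : n → ℂ) : ∃ (E : Type) (_ : Fintype E) (_ : DecidableEq E) (b : n → E)
    (γ : E → ℂ), Function.Surjective b ∧ (∀ i, γ (b i) = lam i) ∧ Function.Injective γ := by
  classical
  have h1 : Finite (Set.range lam) := Finite.Set.finite_range lam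
  refine ⟨Set.range lam, Fintype.ofFinite _, Classical.decEq _,
    fun i => ⟨lam i, i, rfl⟩, fun e => e.1, ?_,
    fun i => rfl, Subtype.val_injective⟩
  rintro ⟨r, i, hi⟩
  exact ⟨i, Subtype.ext hi⟩

end Pool.Agent.E8helper56.TY
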