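import Pool.Agent.E8helper56.TY.Core

set_option autoImplicit false
set_option linter.unusedSectionVars false

/-!
# The central part of the Lie algebra is detected by determinant vectors: the theorem
-/

open Matrix

noncomputable section

namespace Pool.Agent.E8helper56.TY

open Pool.Agent.E8helper1.TX Pool.Agent.E8helper56.TX

variable {n : Type} [Fintype n] [DecidableEq n] {m : ℕ}

theorem vec_mul (v u : (Fin m → n) → ℂ) (A : Op n m) :
    vecMulVec v u * A = vecMulVec v (Aᵀ *ᵥ u) := by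
  rw [Matrix.vecMulVec_mul, Matrix.mulVec_transpose]

theorem mul_vec (v u : (Fin m → n) → ℂ) (A : Op n m) :
    A * vecMulVec v u = vecMulVec (A *ᵥ v) u := Matrix.mul_vecMulVec _ _ _

theorem smul_vec (a : ℂ) (v u : (Fin m → n) → ℂ) : vecMulVec (a • v) u = a • vecMulVec v u :=
  Matrix.smul_vecMulVec _ _ _

theorem vec_smul (a : ℂ) (v u : (Fin m → n) → ℂ) : vecMulVec v (a • u) = a • vecMulVec v u :=
  Matrix.vecMulVec_smul _ _ _

/-- **The central part**: a normal matrix which is orthogonal to a set `L0` of matrices with bounded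
integral eigenvalues, commutes with `L0` and kills the rank one operators of bounded degree which are
killed by `L0` is zero. -/
theorem core_n (w : ℕ) (hw : 1 ≤ w) (L0 : Set (Matrix n n ℂ)) (hL0 : ∀ x ∈ L0, IsInt w x)
    (c : Matrix n n ℂ) (hc : c * cᴴ = cᴴ * c) (hcomm : ∀ x ∈ L0, x * c = c * x)
    (horth : ∀ x ∈ L0, (cᴴ * x).trace = 0) (htr : c.trace = 0)
    (hkill : ∀ k ≤ (Fintype.card n).factorial * w ^ (Fintype.card n - 1),
      ∀ v u : (Fin k → n) → ℂ, v ≠ 0 → u ≠ 0 → EigV c v → EigV cᵀ u →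
      (∀ x ∈ L0, vecMulVec v u * dpow x k = dpow x k * vecMulVec v u) →
      vecMulVec v u * dpow c k = dpow c k * vecMulVec v u) : c = 0 := by
  classical
  by_contra hne
  obtain ⟨V, W, lam, hV1, hV2, hcV, hcV2⟩ := normal_diag c hc
  obtain ⟨E, _, _, b, γ, hbs, hγb, hγi⟩ := exists_fib' lam
  let d : E → ℕ := fun e => Fintype.card {i // b i = e}
  have hd : ∀ e, 1 ≤ d e := by
    intro e
    obtain ⟨i, hi⟩ := hbs e
    have h1 : Nonempty {i // b i = e} := ⟨⟨i, hi⟩⟩
    exact Fintype.card_pos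
  have hdN : ∑ e, d e = Fintype.card n := by
    rw [← Fintype.card_congr (Equiv.sigmaFiberEquiv b), Fintype.card_sigma]
  let D : Matrix n n ℂ := diagonal lam
  have hcV' : c = V * D * W := hcV
  -- the change of basis
  let cj : Matrix n n ℂ → Matrix n n ℂ := fun x => W * x * V
  have hcj : ∀ x, V * cj x * W = x := by
    intro x
    change V * (W * x * V) * W = x
    calc V * (W * x * V) * W = (V * W) * x * (V * W) := by simp only [Matrix.mul_assoc]
      _ = x := by rw [hV2, Matrix.one_mul, Matrix.mul_one]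
  have hblock : ∀ x, x * c = c * x → ∀ i j, b i ≠ b j → cj x i j = 0 := by
    intro x hx i j hij
    rw [hcV', comm_conj _ _ _ _ hV1 hV2, comm_diag] at hx
    by_contra h0
    have h1 := hx i j h0
    apply hij
    apply hγi
    rw [hγb, hγb]
    exact h1
  have hint : ∀ x, IsInt w x → IsInt w (cj x) := by
    intro x hx μ v hv0 hv
    refine hx μ (V *ᵥ v) ?_ ?_
    · intro h0
      apply hv0
      have h1 : W *ᵥ (V *ᵥ v) = v := by rw [Matrix.mulVec_mulVec, hV1, Matrix.one_mulVec]
      rw [← h1, h0, Matrix.mulVec_zero]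
    · have h1 : x *ᵥ (V *ᵥ v) = V *ᵥ (cj x *ᵥ v) := by
        change _ = V *ᵥ ((W * x * V) *ᵥ v)
        rw [Matrix.mulVec_mulVec, Matrix.mulVec_mulVec]
        congr 1
        calc x * V = (V * W) * x * V := by rw [hV2, Matrix.one_mul]
          _ = V * (W * x * V) := by simp only [Matrix.mul_assoc]
      rw [h1, hv, Matrix.mulVec_smul]
  have hone : IsInt w (1 : Matrix n n ℂ) := by
    intro μ v hv0 hv
    obtain ⟨i, hi⟩ := Function.ne_iff.1 hv0
    have h1 := congrFun hv i
    rw [Matrix.one_mulVec, Pi.smul_apply, smul_eq_mul] at h1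
    have h2 : μ = 1 := by
      have h3 : (μ - 1) * v i = 0 := by linear_combination -h1
      exact sub_eq_zero.1 ((mul_eq_zero.1 h3).resolve_right hi)
    exact ⟨1, by rw [abs_one]; exact_mod_cast hw, by rw [h2, Int.cast_one]⟩
  have htr' : (cᴴ * 1).trace = 0 := by
    rw [Matrix.mul_one, Matrix.trace_conjTranspose, htr, star_zero]
  have hL1 : ∀ x, (x ∈ L0 ∨ x = 1) → IsInt w x ∧ x * c = c * x ∧ (cᴴ * x).trace = 0 := by
    rintro x (hx | rfl)
    · exact ⟨hL0 x hx, hcomm x hx, horth x hx⟩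
    · exact ⟨hone, by rw [Matrix.one_mul, Matrix.mul_one], htr'⟩
  let Z : Set (E → ℤ) := {v | ∃ x, (x ∈ L0 ∨ x = 1) ∧
    ∀ e, ∑ i : {i // b i = e}, cj x i.1 i.1 = v e}
  have hZ : ∀ v ∈ Z, ∀ e, |v e| ≤ (w : ℤ) * d e := by
    rintro v ⟨x, hx, hv⟩ e
    obtain ⟨h1, h2, -⟩ := hL1 x hx
    obtain ⟨k, hk, hk'⟩ := int_trace b (hint x h1) (hblock x h2) e
    rw [hv e] at hk'
    have h3 : v e = k := by exact_mod_cast hk'
    rw [h3]
    exact hk
  have hZex : ∀ x, (x ∈ L0 ∨ x = 1) → ∃ v ∈ Z, ∀ e, ∑ i : {i // b i = e}, cj x i.1 i.1 = v e := by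
    intro x hx
    obtain ⟨h1, h2, -⟩ := hL1 x hx
    choose v hv hv' using fun e => int_trace b (hint x h1) (hblock x h2) e
    exact ⟨v, ⟨x, hx, hv'⟩, hv'⟩
  have hγ0 : γ ≠ 0 := by
    intro h0
    apply hne
    have h1 : D = 0 := by
      change diagonal lam = 0
      have h2 : lam = 0 := by
        funext k
        rw [← hγb, h0]
        rfl
      rw [h2]
      exact Matrix.diagonal_zero
    rw [hcV', h1, Matrix.mul_zero, Matrix.zero_mul]
  have hγZ : ∀ v ∈ Z, ∑ e, γ e * (v e : ℂ) = 0 := by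
    rintro v ⟨x, hx, hv⟩
    obtain ⟨-, -, h3⟩ := hL1 x hx
    have h4 : (cᴴ * x).trace = ∑ i, (starRingEnd ℂ) (lam i) * cj x i i := by
      have h5 : (cᴴ * x).trace = (diagonal (fun i => (starRingEnd ℂ) (lam i)) * cj x).trace := by
        rw [hcV2]
        change _ = (diagonal (fun i => (starRingEnd ℂ) (lam i)) * (W * x * V)).trace
        rw [Matrix.mul_assoc V, Matrix.mul_assoc V, Matrix.trace_mul_comm V]
        congr 1
        simp only [Matrix.mul_assoc]
      rw [h5, Matrix.trace]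
      refine Finset.sum_congr rfl fun i _ => ?_
      rw [Matrix.diag_apply, Matrix.diagonal_mul]
    rw [h4, ← Fintype.sum_fiberwise b] at h3
    have h5 : ∀ e, ∑ i : {i // b i = e}, (starRingEnd ℂ) (lam i.1) * cj x i.1 i.1 =
        (starRingEnd ℂ) (γ e * (v e : ℂ)) := by
      intro e
      rw [← hv e, Finset.mul_sum, map_sum]
      have h7 := hv e
      have h8 : ∑ i : {i // b i = e}, (starRingEnd ℂ) (γ e * cj x i.1 i.1) =
          (starRingEnd ℂ) (γ e) * (starRingEnd ℂ) (∑ i : {i // b i = e}, cj x i.1 i.1) := by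
        rw [map_sum, Finset.mul_sum]
        refine Finset.sum_congr rfl fun i _ => ?_
        rw [map_mul]
      rw [h8, h7, map_intCast, ← h7, Finset.mul_sum]
      refine Finset.sum_congr rfl fun i _ => ?_
      have h6 : lam i.1 = γ e := by
        rw [← hγb, i.2]
      rw [h6]
    rw [Finset.sum_congr rfl fun e _ => h5 e, ← map_sum] at h3
    exact (map_eq_zero (starRingEnd ℂ)).1 h3
  -- a real function
  obtain ⟨f, hf0, hfZ, hf⟩ : ∃ f : E → ℝ, f ≠ 0 ∧ (∀ v ∈ Z, ∑ e, f e * (v e : ℝ) = 0) ∧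
      ∀ s : E → ℤ, ∑ e, (s e : ℂ) * ((d e : ℂ) * γ e) = 0 → ∑ e, (s e : ℝ) * (d e * f e) = 0 := by
    by_cases hre : (fun e => (γ e).re) = 0
    · refine ⟨fun e => (γ e).im, ?_, ?_, ?_⟩
      · intro him
        apply hγ0
        funext e
        exact Complex.ext (congrFun hre e) (congrFun him e)
      · intro v hv
        have h1 := congrArg Complex.im (hγZ v hv)
        rw [Complex.im_sum, Complex.zero_im] at h1
        rw [← h1]
        refine Finset.sum_congr rfl fun e _ => ?_
        rw [Complex.mul_im, Complex.intCast_im, Complex.intCast_re, mul_zero, zero_add]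
      · intro s hs
        have h1 := congrArg Complex.im hs
        rw [Complex.im_sum, Complex.zero_im] at h1
        rw [← h1]
        refine Finset.sum_congr rfl fun e _ => ?_
        simp [Complex.mul_im, Complex.mul_re]
    · refine ⟨fun e => (γ e).re, hre, ?_, ?_⟩
      · intro v hv
        have h1 := congrArg Complex.re (hγZ v hv)
        rw [Complex.re_sum, Complex.zero_re] at h1
        rw [← h1]
        refine Finset.sum_congr rfl fun e _ => ?_
        rw [Complex.mul_re, Complex.intCast_im, Complex.intCast_re, mul_zero, sub_zero]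
      · intro s hs
        have h1 := congrArg Complex.re hs
        rw [Complex.re_sum, Complex.zero_re] at h1
        rw [← h1]
        refine Finset.sum_congr rfl fun e _ => ?_
        simp [Complex.mul_im, Complex.mul_re]
  obtain ⟨s, hs1, hs2, hs3⟩ := small_rel d hd w hw Z hZ f hf0 hfZ
  have hs4 := bound_simple d hd w hw _ hdN
  -- the total degree
  have hsum0 : ∑ e, s e * (d e : ℤ) = 0 := by
    refine hs1 (fun e => (d e : ℤ)) ⟨1, Or.inr rfl, fun e => ?_⟩
    have h1 : cj 1 = 1 := by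
      change W * 1 * V = 1
      rw [Matrix.mul_one, hV1]
    rw [h1]
    simp only [Matrix.one_apply_eq]
    rw [Finset.sum_const, Finset.card_univ, nsmul_eq_mul, mul_one]
    push_cast
    rfl
  have hpm : ∀ e, ((s e).toNat : ℤ) - ((-s e).toNat : ℤ) = s e := fun e => by omega
  obtain ⟨m0, hm0⟩ : ∃ m0, ∑ e, (s e).toNat * d e = m0 := ⟨_, rfl⟩
  have hm0' : ∑ e, (-s e).toNat * d e = m0 := by
    have h1 : ((∑ e, (s e).toNat * d e : ℕ) : ℤ) - ((∑ e, (-s e).toNat * d e : ℕ) : ℤ) = 0 := by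
      push_cast
      rw [← Finset.sum_sub_distrib, ← hsum0]
      refine Finset.sum_congr rfl fun e _ => ?_
      rw [← _root_.sub_mul, hpm]
    rw [hm0] at h1
    omega
  have hm0le : m0 ≤ (Fintype.card n).factorial * w ^ (Fintype.card n - 1) := by
    refine le_trans ?_ hs4
    have h1 : (m0 : ℤ) ≤ ∑ e, |s e| * d e := by
      rw [← hm0]
      push_cast
      refine Finset.sum_le_sum fun e _ => mul_le_mul_of_nonneg_right ?_ (by positivity)
      have h3 := le_abs_self (s e)
      have h4 := abs_nonneg (s e)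
      omega
    have h2 := h1.trans hs3
    exact_mod_cast h2
  obtain ⟨β, pr, i1, i2, i3⟩ := exists_pos b (fun e => (s e).toNat) m0 hm0
  obtain ⟨β', pr', j1, j2, j3⟩ := exists_pos b (fun e => (-s e).toNat) m0 hm0'
  have hT1 : tpow W m0 * tpow V m0 = 1 := by rw [tpow_mul, hV1, tpow_one']
  have hT2 : tpow V m0 * tpow W m0 = 1 := by rw [tpow_mul, hV2, tpow_one']
  have hcV3 : c = V * diagonal (fun i => γ (b i)) * W := by
    rw [hcV]
    congr 2
    congr 1
    funext i
    exact (hγb i).symm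
  have hct : cᵀ = Wᵀ * diagonal (fun i => γ (b i)) * Vᵀ := by
    rw [hcV3, Matrix.transpose_mul, Matrix.transpose_mul, Matrix.diagonal_transpose,
      Matrix.mul_assoc]
  have hVt1 : Vᵀ * Wᵀ = 1 := by rw [← Matrix.transpose_mul, hV1, Matrix.transpose_one]
  have hVt2 : Wᵀ * Vᵀ = 1 := by rw [← Matrix.transpose_mul, hV2, Matrix.transpose_one]
  set v : (Fin m0 → n) → ℂ := tpow V m0 *ᵥ dv β pr with hv
  set u : (Fin m0 → n) → ℂ := tpow Wᵀ m0 *ᵥ dv β' pr' with hu
  have hEv : EigV c v := eigV_dv hγi hV1 hV2 hcV3 i1 i2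
  have hEu : EigV cᵀ u := eigV_dv hγi hVt1 hVt2 hct j1 j2
  have hdv0 : dv β pr ≠ 0 := by
    intro h
    have h1 := dv_self i1
    rw [h] at h1
    exact zero_ne_one h1
  have hdu0 : dv β' pr' ≠ 0 := by
    intro h
    have h1 := dv_self j1
    rw [h] at h1
    exact zero_ne_one h1
  have hv0 : v ≠ 0 := by
    intro h
    apply hdv0
    have h1 : tpow W m0 *ᵥ v = dv β pr := by
      rw [hv, Matrix.mulVec_mulVec, hT1, Matrix.one_mulVec]
    rw [← h1, h, Matrix.mulVec_zero]
  have hu0 : u ≠ 0 := by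
    intro h
    apply hdu0
    have h1 : tpow Vᵀ m0 *ᵥ u = dv β' pr' := by
      rw [hu, Matrix.mulVec_mulVec, tpow_mul, hVt1, tpow_one', Matrix.one_mulVec]
    rw [← h1, h, Matrix.mulVec_zero]
  have hA : vecMulVec v u = tpow V m0 * dA β pr β' pr' * tpow W m0 := by
    have h1 : dA β pr β' pr' = vecMulVec (dv β pr) (dv β' pr') := by
      ext I J
      rfl
    have h2 : (tpow W m0)ᵀ = tpow Wᵀ m0 := rfl
    rw [h1, mul_vec, vec_mul, h2]
  -- the commutation criterion
  have hcrit : ∀ x y : Matrix n n ℂ, x = V * y * W → (∀ i j, b i ≠ b j → y i j = 0) →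
      ((tpow V m0 * dA β pr β' pr' * tpow W m0) * dpow x m0 =
        dpow x m0 * (tpow V m0 * dA β pr β' pr' * tpow W m0) ↔
        ∑ e, (s e : ℂ) * ∑ i : {i // b i = e}, y i.1 i.1 = 0) := by
    intro x y hxy hy
    have h1 : dpow x m0 = tpow V m0 * dpow y m0 * tpow W m0 := by
      rw [tpow_dpow _ _ _ hV2, hxy]
    have h2 : tpow W m0 * (tpow V m0 * dA β pr β' pr' * tpow W m0) * tpow V m0 =
        dA β pr β' pr' := by
      calc _ = (tpow W m0 * tpow V m0) * dA β pr β' pr' * (tpow W m0 * tpow V m0) := by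
            simp only [Matrix.mul_assoc]
        _ = _ := by rw [hT1, Matrix.one_mul, Matrix.mul_one]
    rw [h1, comm_conj _ _ _ _ hT1 hT2, h2, dA_comm i1 i2 j1 j2 hy, i3 (fun i => y i i),
      j3 (fun i => y i i), ← sub_eq_zero, ← Finset.sum_sub_distrib]
    have h3 : ∀ e, (((s e).toNat : ℕ) : ℂ) * (∑ i : {i // b i = e}, y i.1 i.1) -
        (((-s e).toNat : ℕ) : ℂ) * (∑ i : {i // b i = e}, y i.1 i.1) =
        (s e : ℂ) * ∑ i : {i // b i = e}, y i.1 i.1 := by
      intro e
      have h4 : (((s e).toNat : ℕ) : ℂ) - (((-s e).toNat : ℕ) : ℂ) = (s e : ℂ) := by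
        have h5 := congrArg (fun z : ℤ => (z : ℂ)) (hpm e)
        push_cast at h5 ⊢
        exact_mod_cast h5
      rw [← _root_.sub_mul, h4]
    rw [Finset.sum_congr rfl fun e _ => h3 e]
  have hmem : ∀ x ∈ L0, vecMulVec v u * dpow x m0 = dpow x m0 * vecMulVec v u := by
    intro x hx
    obtain ⟨z, hz, hz'⟩ := hZex x (Or.inl hx)
    rw [hA]
    refine (hcrit x (cj x) (hcj x).symm (hblock x (hcomm x hx))).2 ?_
    rw [Finset.sum_congr rfl fun e _ => by rw [hz' e]]
    exact_mod_cast hs1 z hz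
  have hfin1 := hkill m0 hm0le v u hv0 hu0 hEv hEu hmem
  rw [hA] at hfin1
  have hfin := (hcrit c D hcV' (fun i j hij => Matrix.diagonal_apply_ne _
    (fun h => hij (by rw [h])))).1 hfin1
  apply hs2
  apply hf
  rw [← hfin]
  refine Finset.sum_congr rfl fun e _ => ?_
  congr 1
  have h6 : ∀ i : {i // b i = e}, D i.1 i.1 = γ e := by
    intro i
    have h7 : lam i.1 = γ e := by
      rw [← hγb, i.2]
    change diagonal lam i.1 i.1 = _
    rw [Matrix.diagonal_apply_eq, h7]
  rw [Finset.sum_congr rfl fun i _ => h6 i, Finset.sum_const, Finset.card_univ, nsmul_eq_mul]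

end Pool.Agent.E8helper56.TY
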