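import Pool.Agent.E8helper56.TY.Slop
import Pool.Agent.E8helper56.TY.Cont

set_option autoImplicit false
set_option linter.unusedSectionVars false

/-!
# Operators of rank one killed by the slopes
-/

open Matrix Module

noncomputable section

namespace Pool.Agent.E8helper56.TY

open Pool.Agent.E8helper1.TX Pool.Agent.E8helper56.TX Pool.Agent.E8helper41.TX
open Pool.Agent.E8helper1.CT
open Pool.Agent.E8helper1.AP (Jb exists_jb fK fK_unit mem_pow vanish')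

/-- A semi-invariant form. -/
theorem vanish_r {X : Type} [AddCommGroup X] [Module ℂ X] {κ : Type} [Fintype κ] [DecidableEq κ]
    (G : Module.End ℂ X) (φ : MultilinearMap ℂ (fun _ : κ => X) ℂ) (r : ℂ) (hr : r ≠ 0)
    (hφ : ∀ v, φ (fun k => G (v k)) = r * φ v) (lam : κ → ℂ) (v : κ → X)
    (hv : ∀ k, v k ∈ G.maxGenEigenspace (lam k)) (h0 : φ v ≠ 0) : ∏ k, lam k = r := by
  rcases isEmpty_or_nonempty κ with hκ | hκ
  · have h1 := hφ v
    have h2 : (fun k => G (v k)) = v := funext fun k => isEmptyElim k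
    rw [h2] at h1
    rw [Finset.univ_eq_empty, Finset.prod_empty]
    have h3 : (r - 1) * φ v = 0 := by
      rw [_root_.sub_mul, ← h1, one_mul, sub_self]
    exact (sub_eq_zero.1 ((mul_eq_zero.1 h3).resolve_right h0)).symm
  · obtain ⟨c, hc⟩ := IsAlgClosed.exists_pow_nat_eq r⁻¹ (Fintype.card_pos : 0 < Fintype.card κ)
    have h1 := vanish' (c • G) φ (fun v => by
      have h2 : (fun k => (c • G) (v k)) = fun k => c • G (v k) := rfl
      rw [h2, MultilinearMap.map_smul_univ, hφ, Finset.prod_const, Finset.card_univ, hc, smul_eq_mul,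
        ← mul_assoc, inv_mul_cancel₀ hr, one_mul]) (fun k => c * lam k) v (fun k => by
      obtain ⟨i, hi⟩ := (Module.End.mem_maxGenEigenspace _ _ _).1 (hv k)
      rw [Module.End.mem_maxGenEigenspace]
      refine ⟨i, ?_⟩
      have h2 : c • G - (c * lam k) • (1 : Module.End ℂ X) = c • (G - lam k • 1) := by
        rw [smul_sub, smul_smul]
      rw [h2, smul_pow, LinearMap.smul_apply, hi, smul_zero]) h0
    rw [Finset.prod_mul_distrib, Finset.prod_const, Finset.card_univ, hc] at h1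
    field_simp at h1
    exact h1

variable {ℓ : ℕ} [Fact ℓ.Prime] {n : Type} [Fintype n] [DecidableEq n] {Γ : Type} [Group Γ]
  {m : ℕ} [Algebra ℚ_[ℓ] ℂ] {P : Matrix n n ℂ}

/-- **The eigenvalues on an operator killed by the slopes.** -/
theorem key_gamma (hP : IsUnit P.det) (D : GalData ℓ n Γ) (g : Γ) (k : ℕ) (A : Op n k)
    (hA : A ≠ 0) (j : ℕ) (a b : ℂ) (ha : a ≠ 0) (hb : b ≠ 0)
    (h1 : tpow (cj P (D.R (g ^ j))) k * A = a • A)
    (h2 : A * tpow (cj P (D.R (g ^ j))) k = b • A)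
    (J : Jb (Matrix.toLin' ((D.R g).map (algebraMap ℚ_[ℓ] ℂ)))) (Λ : Set (Additive ℂˣ →+ ℂ))
    (hL : ∀ s ∈ Λ, A * dpow (P⁻¹ * slopM J s * P) k = dpow (P⁻¹ * slopM J s * P) k * A)
    (W : Set ℂˣ) (hW : ∀ q, ∀ h : J.lam q ≠ 0, Units.mk0 (J.lam q) h ∈ W) (R : ℕ)
    (hR : ∀ u ∈ Subgroup.closure W, (∀ s ∈ Λ, s (Additive.ofMul u) = 0) → u ^ R = 1) :
    b ^ R = a ^ R := by
  have _ := J.fι
  have _ := J.dι
  set A0 : Op n k := tpow P k * A * tpow P⁻¹ k with hA0d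
  have hcj : cjm P k A0 = A := cjm_back hP A
  have hA0 : A0 ≠ 0 := by
    intro h
    apply hA
    rw [← hcj, h, map_zero]
  set X := (D.R (g ^ j)).map (algebraMap ℚ_[ℓ] ℂ) with hX
  set BC := D.B.map (algebraMap ℚ_[ℓ] ℂ) with hBC
  set T : Op n k := tpow X k with hT
  have hcT : cjm P k T = tpow (cj P (D.R (g ^ j))) k := cjm_tpow X
  have h1' : T * A0 = a • A0 := by
    apply cjm_inj hP
    rw [cjm_mul hP, map_smul, hcj, hcT, h1]
  have h2' : A0 * T = b • A0 := by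
    apply cjm_inj hP
    rw [cjm_mul hP, map_smul, hcj, hcT, h2]
  set TB : Op n k := tpow BC k with hTB
  have hTT : Tᵀ * TB * T = TB := by
    change (tpowK ℂ X k)ᵀ * tpowK ℂ BC k * tpowK ℂ X k = tpowK ℂ BC k
    rw [tpowK_transpose, ← tpowK_mul, ← tpowK_mul, BC_inv]
  have hr : b / a ≠ 0 := div_ne_zero hb ha
  have hM : Tᵀ * (TB * A0) * T = (b / a) • (TB * A0) := by
    have h3 : A0 = a⁻¹ • (T * A0) := by rw [h1', smul_smul, inv_mul_cancel₀ ha, one_smul]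
    calc Tᵀ * (TB * A0) * T = Tᵀ * TB * (A0 * T) := by simp only [Matrix.mul_assoc]
      _ = b • (Tᵀ * TB * A0) := by rw [h2', Matrix.mul_smul]
      _ = b • (Tᵀ * TB * (a⁻¹ • (T * A0))) := by rw [← h3]
      _ = (b / a) • (Tᵀ * TB * T * A0) := by
        rw [Matrix.mul_smul, smul_smul, div_eq_mul_inv]
        simp only [Matrix.mul_assoc]
      _ = _ := by rw [hTT]
  obtain ⟨φ, hφd⟩ : ∃ φ, φ = frm (TB * A0) := ⟨_, rfl⟩
  have hφ : ∀ v, φ (fun l => ((Matrix.toLin' ((D.R g).map (algebraMap ℚ_[ℓ] ℂ))) ^ j) (v l)) =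
      (b / a) * φ v := by
    intro v
    have h3 : (fun l => ((Matrix.toLin' ((D.R g).map (algebraMap ℚ_[ℓ] ℂ))) ^ j) (v l)) =
        fun l => X *ᵥ v l := by
      funext l
      rw [toLin_pow_apply, RC_pow]
    rw [h3, hφd, frm_comp]
    change frm (Tᵀ * (TB * A0) * T) v = _
    rw [hM, frm_apply, frm_apply, Finset.mul_sum]
    refine Finset.sum_congr rfl fun I _ => ?_
    rw [Finset.mul_sum]
    refine Finset.sum_congr rfl fun I' _ => ?_
    rw [Matrix.smul_apply, smul_eq_mul, mul_assoc]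
  obtain ⟨I, hI⟩ : ∃ I : Fin k × Fin 2 → J.ι, φ (fun l => J.e (I l)) ≠ 0 := by
    by_contra hcon
    push Not at hcon
    have h3 : φ = 0 := Basis.ext_multilinear (fun _ => J.e) fun I => by
      rw [hcon I]
      rfl
    have h4 : frm (TB * A0) = frm 0 := by
      rw [← hφd, h3]
      refine MultilinearMap.ext fun v => ?_
      rw [frm_apply]
      simp only [Matrix.zero_apply, zero_mul, Finset.sum_const_zero]
      rfl
    have h5 := frm_inj h4
    apply hA0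
    refine cancel_left (B := TB) (tpowK_unit (BC_unit D) k) ?_
    rw [h5, Matrix.mul_zero]
  have hlam : ∀ q, J.lam q ≠ 0 := lam_ne J (RC_inj D g)
  have hprod := vanish_r _ φ (b / a) hr hφ (fun l => J.lam (I l) ^ j) (fun l => J.e (I l))
    (fun l => mem_pow (J.mem (I l)) j) hI
  have hkill : ∀ s ∈ Λ, ∑ l, fK s (J.lam (I l)) = 0 := by
    intro s hs
    have h3 : A0 * dpow (slopM J s) k = dpow (slopM J s) k * A0 := by
      rw [← cjm_comm hP, cjm_dpow hP, hcj]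
      exact hL s hs
    have h4 := (kill_iff (BC_unit D) (slope_skew D g J s) A0).2 h3
    rw [slopM_toLin] at h4
    have h5 := h4 (fun l => J.e (I l))
    have h6 : ∀ l, frm (tpowK ℂ BC k * A0) (Function.update (fun l => J.e (I l)) l
        ((J.op (fun c => fK s c • 1)) (J.e (I l)))) =
        fK s (J.lam (I l)) * φ (fun l => J.e (I l)) := by
      intro l
      rw [J.op_on _ (J.mem (I l)), LinearMap.smul_apply, Module.End.one_apply,
        MultilinearMap.map_update_smul, smul_eq_mul, Function.update_eq_self, hφd]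
      rfl
    rw [Finset.sum_congr rfl fun l _ => h6 l, ← Finset.sum_mul] at h5
    exact (mul_eq_zero.1 h5).resolve_right hI
  let U : ℂˣ := ∏ l, Units.mk0 (J.lam (I l)) (hlam (I l))
  have hU : U ∈ Subgroup.closure W :=
    Subgroup.prod_mem _ fun l _ => Subgroup.subset_closure (hW (I l) (hlam (I l)))
  have hUs : ∀ s ∈ Λ, s (Additive.ofMul U) = 0 := by
    intro s hs
    change s (Additive.ofMul (∏ l, Units.mk0 (J.lam (I l)) (hlam (I l)))) = 0
    rw [ofMul_prod, map_sum, ← hkill s hs]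
    refine Finset.sum_congr rfl fun l _ => ?_
    exact (fK_unit s (Units.mk0 _ (hlam (I l)))).symm
  have h3 := congrArg Units.val (hR U hU hUs)
  have h4 : (U : ℂ) = ∏ l, J.lam (I l) := by
    change ((∏ l, Units.mk0 (J.lam (I l)) (hlam (I l)) : ℂˣ) : ℂ) = _
    rw [Units.coe_prod]
    rfl
  rw [Units.val_pow_eq_pow_val, h4, Units.val_one] at h3
  rw [Finset.prod_pow] at hprod
  have h5 : (b / a) ^ R = 1 := by
    rw [← hprod, ← pow_mul, mul_comm j R, pow_mul, h3, one_pow]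
  rw [div_pow, div_eq_one_iff_eq (pow_ne_zero _ ha)] at h5
  exact h5

theorem closure_of (R : Γ → n → n → ℚ_[ℓ]) (F : Set Γ) (x : n → n → ℚ_[ℓ])
    (h : ∀ ε : ℝ, 0 < ε → ∃ γ ∈ F, ∀ i j, ‖R γ i j - x i j‖ < ε) :
    x ∈ closure (R '' F) := by
  rw [Metric.mem_closure_iff]
  intro ε hε
  obtain ⟨γ, hγ, h1⟩ := h ε hε
  refine ⟨_, ⟨γ, hγ, rfl⟩, ?_⟩
  rw [dist_comm, dist_pi_lt_iff hε]
  intro i
  rw [dist_pi_lt_iff hε]
  intro j
  rw [dist_eq_norm]
  exact h1 i j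

/-- **Operators of rank one.** -/
theorem det_char (hP : IsUnit P.det) (D : GalData ℓ n Γ) (F : Set Γ) (M : ℕ) (hM : 0 < M)
    (dense : ∀ (g : Γ) (ε : ℝ), 0 < ε → ∃ γ ∈ F, ∀ i j, ‖D.R γ i j - D.R (g ^ M) i j‖ < ε)
    (R : ℕ) (hR : 0 < R) (k : ℕ) (c : Matrix n n ℂ) (v u : (Fin k → n) → ℂ)
    (hc : o1 c ∈ TC D P 1) (hv : v ≠ 0) (hu : u ≠ 0) (hEv : EigV c v) (hEu : EigV cᵀ u)
    (hkey : ∀ γ ∈ F, ∀ (j : ℕ) (a b : ℂ), a ≠ 0 → b ≠ 0 →
      tpow (cj P (D.R (γ ^ j))) k * vecMulVec v u = a • vecMulVec v u →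
      vecMulVec v u * tpow (cj P (D.R (γ ^ j))) k = b • vecMulVec v u → b ^ R = a ^ R) :
    tens (vecMulVec v u : Op n k) (vecMulVec v u) ∈ TC D P (k + k) := by
  obtain ⟨⟨Δ, hΔ, h1⟩, h2⟩ := (mem_TC_one hP D c).1 hc
  -- the characters
  have hα0 : ∀ g : Δ, ∃ a : ℂ, tpow (cj P (D.R g)) k *ᵥ v = a • v := fun g =>
    hEv.1 _ (h1 g g.2).symm
  have hβ0 : ∀ g : Δ, ∃ b : ℂ, tpow (cj P (D.R g))ᵀ k *ᵥ u = b • u := fun g => by
    refine hEu.1 _ ?_
    rw [← Matrix.transpose_mul, ← Matrix.transpose_mul, h1 g g.2]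
  choose α hα using hα0
  choose β hβ using hβ0
  obtain ⟨I0, hI0⟩ := Function.ne_iff.1 hv
  obtain ⟨I1, hI1⟩ := Function.ne_iff.1 hu
  change v I0 ≠ 0 at hI0
  change u I1 ≠ 0 at hI1
  have hcanc : ∀ {w : (Fin k → n) → ℂ}, w ≠ 0 → ∀ {a b : ℂ}, a • w = b • w → a = b := by
    intro w hw a b h
    exact smul_left_injective ℂ hw h
  have hα1 : α 1 = 1 := by
    refine hcanc hv ?_
    rw [← hα, Subgroup.coe_one, map_one, cj_one hP, tpow_one', Matrix.one_mulVec, one_smul]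
  have hβ1 : β 1 = 1 := by
    refine hcanc hu ?_
    rw [← hβ, Subgroup.coe_one, map_one, cj_one hP, Matrix.transpose_one, tpow_one',
      Matrix.one_mulVec, one_smul]
  have hαm : ∀ g h : Δ, α (g * h) = α g * α h := by
    intro g h
    refine hcanc hv ?_
    rw [← hα, Subgroup.coe_mul, map_mul, cj_mul hP, ← tpow_mul, ← Matrix.mulVec_mulVec, hα h,
      Matrix.mulVec_smul, hα g, smul_smul, mul_comm]
  have hβm : ∀ g h : Δ, β (g * h) = β g * β h := by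
    intro g h
    refine hcanc hu ?_
    rw [← hβ, Subgroup.coe_mul, map_mul, cj_mul hP, Matrix.transpose_mul, ← tpow_mul,
      ← Matrix.mulVec_mulVec, hβ g, Matrix.mulVec_smul, hβ h, smul_smul]
  let αH : Δ →* ℂ := ⟨⟨α, hα1⟩, hαm⟩
  let βH : Δ →* ℂ := ⟨⟨β, hβ1⟩, hβm⟩
  let χ : Δ →* ℂˣ := βH.toHomUnits / αH.toHomUnits
  have hαu : ∀ g, ((αH.toHomUnits g : ℂˣ) : ℂ) = α g := fun g => rfl
  have hβu : ∀ g, ((βH.toHomUnits g : ℂˣ) : ℂ) = β g := fun g => rfl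
  have hαne : ∀ g, α g ≠ 0 := fun g => by
    rw [← hαu]
    exact Units.ne_zero _
  have hβne : ∀ g, β g ≠ 0 := fun g => by
    rw [← hβu]
    exact Units.ne_zero _
  set j := Δ.normalCore.index with hj
  have hj0 : 0 < j := by
    have h3 : Δ.normalCore.FiniteIndex := inferInstance
    exact Nat.pos_of_ne_zero h3.index_ne_zero
  have hpow : ∀ g : Γ, g ^ j ∈ Δ := fun g => Δ.normalCore_le (Δ.normalCore.pow_index_mem g)
  set A : Op n k := vecMulVec v u with hA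
  have hAl : ∀ g : Δ, tpow (cj P (D.R g)) k * A = α g • A := by
    intro g
    rw [hA, mul_vec, hα, smul_vec]
  have hAr : ∀ g : Δ, A * tpow (cj P (D.R g)) k = β g • A := by
    intro g
    have h3 : (tpow (cj P (D.R g)) k)ᵀ = tpow (cj P (D.R g))ᵀ k := rfl
    rw [hA, vec_mul, h3, hβ, vec_smul]
  -- the polynomial functions
  let fa : (n → n → ℚ_[ℓ]) → ℂ := fun X => (tpow ((P⁻¹ * Matrix.map X (algebraMap ℚ_[ℓ] ℂ) * P) ^ j) k *ᵥ v) I0 * (v I0)⁻¹
  let fb : (n → n → ℚ_[ℓ]) → ℂ := fun X => (tpow ((P⁻¹ * Matrix.map X (algebraMap ℚ_[ℓ] ℂ) * P) ^ j)ᵀ k *ᵥ u) I1 * (u I1)⁻¹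
  have hbase : PFM ℚ_[ℓ] (fun X : n → n → ℚ_[ℓ] =>
      (P⁻¹ * Matrix.map X (algebraMap ℚ_[ℓ] ℂ) * P) ^ j) :=
    PFM.pow (PFM.mul (PFM.mul (PFM.const _) PFM.map) (PFM.const _)) j
  have hfa : PF ℚ_[ℓ] fa := PF.mul (PFM.mulVec (PFM.tpow hbase k) v I0) (PF.const _)
  have hfb : PF ℚ_[ℓ] fb := PF.mul (PFM.mulVec (PFM.tpow (PFM.transpose hbase) k) u I1) (PF.const _)
  have hcjp : ∀ g : Γ, (cj P (D.R g)) ^ j = cj P (D.R (g ^ j)) := by
    intro g
    have h3 : ∀ i : ℕ, (cj P (D.R g)) ^ i = cj P (D.R (g ^ i)) := by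
      intro i
      induction i with
      | zero => rw [pow_zero, pow_zero, map_one, cj_one hP]
      | succ i ih => rw [pow_succ, pow_succ, ih, map_mul, cj_mul hP]
    exact h3 j
  have hfaR : ∀ g : Γ, fa (D.R g) = α ⟨g ^ j, hpow g⟩ := by
    intro g
    change (tpow ((cj P (D.R g)) ^ j) k *ᵥ v) I0 * (v I0)⁻¹ = _
    rw [hcjp, hα ⟨g ^ j, hpow g⟩, Pi.smul_apply, smul_eq_mul, mul_assoc, mul_inv_cancel₀ hI0, mul_one]
  have hfbR : ∀ g : Γ, fb (D.R g) = β ⟨g ^ j, hpow g⟩ := by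
    intro g
    change (tpow ((cj P (D.R g)) ^ j)ᵀ k *ᵥ u) I1 * (u I1)⁻¹ = _
    rw [hcjp, hβ ⟨g ^ j, hpow g⟩, Pi.smul_apply, smul_eq_mul, mul_assoc, mul_inv_cancel₀ hI1, mul_one]
  have hpoly : PF ℚ_[ℓ] (fun X => fb X ^ R + (-1) * fa X ^ R) :=
    PF.add _ _ (PF.pow hfb R) (PF.mul (PF.const (-1)) (PF.pow hfa R))
  have hall : ∀ g : Γ, β ⟨(g ^ M) ^ j, hpow _⟩ ^ R = α ⟨(g ^ M) ^ j, hpow _⟩ ^ R := by
    intro g
    have h3 := hpoly.closure (S := (fun γ => (show n → n → ℚ_[ℓ] from D.R γ)) '' F) (by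
      rintro _ ⟨γ, hγ, rfl⟩
      change fb (D.R γ) ^ R + (-1) * fa (D.R γ) ^ R = 0
      rw [hfaR, hfbR, hkey γ hγ j _ _ (hαne _) (hβne _) (hAl ⟨γ ^ j, hpow γ⟩)
        (hAr ⟨γ ^ j, hpow γ⟩)]
      ring) (closure_of D.R F (D.R (g ^ M)) (dense g))
    change fb (D.R (g ^ M)) ^ R + (-1) * fa (D.R (g ^ M)) ^ R = 0 at h3
    rw [hfaR, hfbR] at h3
    linear_combination h3
  have hχ : ∀ g : Δ, χ g ^ (M * j * R) = 1 := by
    intro g
    have h3 := hall g
    have h4 : (⟨((g : Γ) ^ M) ^ j, hpow _⟩ : Δ) = g ^ (M * j) := Subtype.ext (by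
      rw [Subgroup.coe_pow, pow_mul])
    rw [h4] at h3
    apply Units.ext
    have h5 : ((χ g : ℂˣ) : ℂ) = β g / α g := by
      change ((βH.toHomUnits g / αH.toHomUnits g : ℂˣ) : ℂ) = _
      rw [Units.val_div_eq_div_val]
      rfl
    have h6 : β (g ^ (M * j)) = β g ^ (M * j) := map_pow βH g (M * j)
    have h7 : α (g ^ (M * j)) = α g ^ (M * j) := map_pow αH g (M * j)
    rw [h6, h7, ← pow_mul, ← pow_mul] at h3
    rw [Units.val_pow_eq_pow_val, h5, Units.val_one, div_pow, h3, div_self (pow_ne_zero _ (hαne g))]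
  have hfin : Finite χ.range := by
    have hpos : 0 < M * j * R := Nat.mul_pos (Nat.mul_pos hM hj0) hR
    have : NeZero (M * j * R) := ⟨hpos.ne'⟩
    have h3 : (χ.range : Set ℂˣ) ⊆ (rootsOfUnity (M * j * R) ℂ : Set ℂˣ) := by
      rintro _ ⟨g, rfl⟩
      exact (mem_rootsOfUnity _ _).2 (hχ g)
    have h4 : Finite (rootsOfUnity (M * j * R) ℂ) := inferInstance
    have h5 : (rootsOfUnity (M * j * R) ℂ : Set ℂˣ).Finite := Set.finite_coe_iff.1 h4
    exact (h5.subset h3).to_subtype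
  have hker : χ.ker.FiniteIndex := inferInstance
  have hΔ' := Pool.Agent.W522.U.fi_map hΔ χ.ker hker
  -- the conclusion
  have hparity : ∃ a b : ℂ, tpow (cj P D.p) k * A = a • A ∧ A * tpow (cj P D.p) k = b • A ∧
      a * a = 1 ∧ b * b = 1 := by
    obtain ⟨a, ha⟩ := hEv.1 (cj P D.p) h2.symm
    obtain ⟨b, hb⟩ := hEu.1 (cj P D.p)ᵀ (by
      rw [← Matrix.transpose_mul, ← Matrix.transpose_mul, h2])
    have hpp : cj P D.p * cj P D.p = 1 := by rw [← cj_mul hP, D.p_mul, cj_one hP]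
    refine ⟨a, b, ?_, ?_, ?_, ?_⟩
    · rw [hA, mul_vec, ha, smul_vec]
    · have h3 : (tpow (cj P D.p) k)ᵀ = tpow (cj P D.p)ᵀ k := rfl
      rw [hA, vec_mul, h3, hb, vec_smul]
    · refine hcanc hv ?_
      have h3 : tpow (cj P D.p) k *ᵥ (tpow (cj P D.p) k *ᵥ v) = v := by
        rw [Matrix.mulVec_mulVec, tpow_mul, hpp, tpow_one', Matrix.one_mulVec]
      rw [ha, Matrix.mulVec_smul, ha, smul_smul] at h3
      rw [h3, one_smul]
    · refine hcanc hu ?_
      have h3 : tpow (cj P D.p)ᵀ k *ᵥ (tpow (cj P D.p)ᵀ k *ᵥ u) = u := by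
        rw [Matrix.mulVec_mulVec, tpow_mul, ← Matrix.transpose_mul, hpp, Matrix.transpose_one,
          tpow_one', Matrix.one_mulVec]
      rw [hb, Matrix.mulVec_smul, hb, smul_smul] at h3
      rw [h3, one_smul]
  rw [mem_TC_iff hP]
  refine ⟨⟨_, hΔ', ?_⟩, ?_⟩
  · rintro _ ⟨g, hg, rfl⟩
    have h3 : χ g = 1 := hg
    have h4 : β g = α g := by
      have h5 : βH.toHomUnits g = αH.toHomUnits g := by
        have h6 : βH.toHomUnits g / αH.toHomUnits g = 1 := h3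
        exact div_eq_one.1 h6
      rw [← hαu, ← hβu, h5]
    change tens A A * tpow (cj P (D.R (g : Γ))) (k + k) = tpow (cj P (D.R (g : Γ))) (k + k) * tens A A
    rw [tpow_add_deg, tens_mul', tens_mul', hAl, hAr, h4]
  · obtain ⟨a, b, e1, e2, e3, e4⟩ := hparity
    rw [tpow_add_deg, tens_mul', tens_mul', e1, e2, tens_smul_l, tens_smul_r, tens_smul_l,
      tens_smul_r, smul_smul, smul_smul, e3, e4]

end Pool.Agent.E8helper56.TY
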