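import Pool.Agent.E8helper56.TY.TCl
import Pool.Agent.E8helper1.CT.Tors

set_option autoImplicit false
set_option linter.unusedSectionVars false

/-!
# The operators of the slopes
-/

open Matrix Module

noncomputable section

namespace Pool.Agent.E8helper56.TY

open Pool.Agent.E8helper1.TX Pool.Agent.E8helper56.TX Pool.Agent.E8helper41.TX
open Pool.Agent.E8helper1.CT
open Pool.Agent.E8helper1.AP (Jb exists_jb fK fK_unit mem_pow vanish')

variable {ℓ : ℕ} [Fact ℓ.Prime] {n : Type} [Fintype n] [DecidableEq n] {Γ : Type} [Group Γ]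
  {m : ℕ} [Algebra ℚ_[ℓ] ℂ] {P : Matrix n n ℂ}

/-- the slope operator -/
def slopM {G : Module.End ℂ (n → ℂ)} (J : Jb G) (s : Additive ℂˣ →+ ℂ) : Matrix n n ℂ :=
  LinearMap.toMatrix' (J.op (fun c => fK s c • 1))

theorem slopM_toLin {G : Module.End ℂ (n → ℂ)} (J : Jb G) (s : Additive ℂˣ →+ ℂ) :
    Matrix.toLin' (slopM J s) = J.op (fun c => fK s c • 1) := Matrix.toLin'_toMatrix' _

section inv

variable (D : GalData ℓ n Γ)

theorem BC_unit : IsUnit (D.B.map (algebraMap ℚ_[ℓ] ℂ)).det := by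
  have h : (D.B.map (algebraMap ℚ_[ℓ] ℂ)).det = algebraMap ℚ_[ℓ] ℂ D.B.det :=
    (RingHom.map_det (algebraMap ℚ_[ℓ] ℂ) D.B).symm
  rw [h]
  exact D.B_unit.map _

theorem BC_inv (g : Γ) : ((D.R g).map (algebraMap ℚ_[ℓ] ℂ))ᵀ * D.B.map (algebraMap ℚ_[ℓ] ℂ) *
    (D.R g).map (algebraMap ℚ_[ℓ] ℂ) = D.B.map (algebraMap ℚ_[ℓ] ℂ) := by
  rw [← Matrix.transpose_map, ← map_mul', ← map_mul', D.B_inv]

theorem RC_pow (g : Γ) (j : ℕ) : ((D.R g).map (algebraMap ℚ_[ℓ] ℂ)) ^ j =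
    (D.R (g ^ j)).map (algebraMap ℚ_[ℓ] ℂ) := by
  induction j with
  | zero => rw [pow_zero, pow_zero, map_one, Matrix.map_one _ (map_zero _) (map_one _)]
  | succ j ih => rw [pow_succ, pow_succ, ih, map_mul, map_mul']

theorem RC_inj (g : Γ) (v : n → ℂ) (h : Matrix.toLin' ((D.R g).map (algebraMap ℚ_[ℓ] ℂ)) v = 0) :
    v = 0 := by
  rw [Matrix.toLin'_apply] at h
  have h1 : (D.R g⁻¹).map (algebraMap ℚ_[ℓ] ℂ) * (D.R g).map (algebraMap ℚ_[ℓ] ℂ) = 1 := by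
    rw [← map_mul', ← map_mul, inv_mul_cancel, map_one, Matrix.map_one _ (map_zero _) (map_one _)]
  rw [← Matrix.one_mulVec v, ← h1, ← Matrix.mulVec_mulVec, h, Matrix.mulVec_zero]

theorem toLin_pow_apply (X : Matrix n n ℂ) (M : ℕ) (v : n → ℂ) :
    ((Matrix.toLin' X) ^ M) v = (X ^ M) *ᵥ v := by
  rw [← Matrix.toLin'_pow, Matrix.toLin'_apply]

theorem slope_skew (g : Γ) (J : Jb (Matrix.toLin' ((D.R g).map (algebraMap ℚ_[ℓ] ℂ))))
    (s : Additive ℂˣ →+ ℂ) : (slopM J s)ᵀ * D.B.map (algebraMap ℚ_[ℓ] ℂ) =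
      -(D.B.map (algebraMap ℚ_[ℓ] ℂ) * slopM J s) := by
  set BC := D.B.map (algebraMap ℚ_[ℓ] ℂ) with hBC
  set S := slopM J s with hS
  have h1 : ∀ v, frm (tpowK ℂ BC 1 * 1) (fun l => (D.R g).map (algebraMap ℚ_[ℓ] ℂ) *ᵥ v l) =
      frm (tpowK ℂ BC 1 * 1) v :=
    (inv_iff (BC_unit D) (BC_inv D g) (1 : Matrix (Fin 1 → n) (Fin 1 → n) ℂ)).2 (by
      rw [Matrix.mul_one, Matrix.one_mul])
  have h2 : Pool.Agent.H204R3.SP.Kills (J.op (fun c => fK s c • 1)) (frm (tpowK ℂ BC 1 * 1)) := by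
    refine slope_kill J (M := 1) one_ne_zero (fun v => ?_) s
    rw [pow_one]
    simp only [Matrix.toLin'_apply]
    exact h1 v
  rw [← slopM_toLin, ← hS, Matrix.mul_one] at h2
  have h3 : frm ((dpowK ℂ S 1)ᵀ * tpowK ℂ BC 1 + tpowK ℂ BC 1 * dpowK ℂ S 1) = frm 0 := by
    refine MultilinearMap.ext fun v => ?_
    rw [← frm_kill]
    have h4 := h2 v
    simp only [Matrix.toLin'_apply] at h4
    rw [h4, frm_apply]
    simp only [Matrix.zero_apply, zero_mul, Finset.sum_const_zero]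
  have h4 := frm_inj h3
  have h5 : dpowK ℂ S 1 = tpowK ℂ S 1 := by
    change dpow S 1 = tpow S 1
    rw [dpow_one', tpow_one1]
  rw [h5, tpowK_transpose, ← tpowK_mul, ← tpowK_mul] at h4
  rw [eq_neg_iff_add_eq_zero]
  ext i j
  have h6 := congrFun (congrFun h4 (fun _ => i)) (fun _ => j)
  simp only [Matrix.add_apply, tpowK, Fin.prod_univ_one] at h6
  exact h6

theorem slope_comm (g : Γ) (J : Jb (Matrix.toLin' ((D.R g).map (algebraMap ℚ_[ℓ] ℂ))))
    (s : Additive ℂˣ →+ ℂ) (m : ℕ) (A : Matrix (Fin m → n) (Fin m → n) ℚ_[ℓ])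
    (hA : A ∈ PotOp D.R D.p m) : A.map (algebraMap ℚ_[ℓ] ℂ) * dpow (slopM J s) m =
      dpow (slopM J s) m * A.map (algebraMap ℚ_[ℓ] ℂ) := by
  obtain ⟨⟨Δ, hΔ, h1⟩, -⟩ := hA
  obtain ⟨M, hM0, hM⟩ := Pool.Agent.W522.U.exists_pow_mem Δ hΔ g
  refine (kill_iff (BC_unit D) (slope_skew D g J s) _).1 ?_
  rw [slopM_toLin]
  refine slope_kill J hM0 (fun v => ?_) s
  have h2 : (fun k => ((Matrix.toLin' ((D.R g).map (algebraMap ℚ_[ℓ] ℂ))) ^ M) (v k)) =
      fun k => (D.R (g ^ M)).map (algebraMap ℚ_[ℓ] ℂ) *ᵥ v k := by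
    funext k
    rw [toLin_pow_apply, RC_pow]
  rw [h2]
  refine (inv_iff (BC_unit D) (BC_inv D (g ^ M)) _).2 ?_ v
  change _ * tpow _ m = tpow _ m * _
  rw [← tpowK_map, ← map_mul', ← map_mul', h1 _ hM]

theorem slope_ann (hP : IsUnit P.det) (g : Γ)
    (J : Jb (Matrix.toLin' ((D.R g).map (algebraMap ℚ_[ℓ] ℂ)))) (s : Additive ℂˣ →+ ℂ) :
    P⁻¹ * slopM J s * P ∈ Ann (TC D P) := by
  rintro k _ ⟨B, hB, rfl⟩
  rw [← cjm_dpow hP, cjm_comm hP]
  exact comm_bcM (fun M hM => slope_comm D g J s k M hM) B hB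

end inv

/-- the eigenvalues are roots of the characteristic polynomial -/
theorem lam_root {X : Matrix n n ℂ} (J : Jb (Matrix.toLin' X)) (q : J.ι) :
    X.charpoly.IsRoot (J.lam q) := by
  have h1 := J.mem q
  have h2 : Module.End.HasEigenvalue (Matrix.toLin' X) (J.lam q) := by
    by_contra hne
    have h3 : Module.End.maxGenEigenspace (Matrix.toLin' X) (J.lam q) = ⊥ := by
      by_contra hne'
      apply hne
      rw [Module.End.maxGenEigenspace_eq_genEigenspace_finrank] at hne'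
      exact Module.End.hasEigenvalue_of_hasGenEigenvalue (k := finrank ℂ (n → ℂ)) hne'
    rw [h3, Submodule.mem_bot] at h1
    exact J.e.ne_zero q h1
  rw [← Matrix.charpoly_toLin']
  exact Module.End.hasEigenvalue_iff_isRoot_charpoly _ _ |>.1 h2

theorem slope_int (hP : IsUnit P.det) {X : Matrix n n ℂ} (J : Jb (Matrix.toLin' X))
    (s : Additive ℂˣ →+ ℂ) (w : ℕ)
    (hs : ∀ q, ∃ z : ℤ, |z| ≤ w ∧ fK s (J.lam q) = z) : IsInt w (P⁻¹ * slopM J s * P) := by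
  have _ := J.fι
  intro μ v hv0 hv
  have hPv : P *ᵥ v ≠ 0 := by
    intro h
    apply hv0
    rw [← Matrix.one_mulVec v, ← Matrix.nonsing_inv_mul P hP, ← Matrix.mulVec_mulVec, h,
      Matrix.mulVec_zero]
  have h1 : slopM J s *ᵥ (P *ᵥ v) = μ • (P *ᵥ v) := by
    have h2 := congrArg (fun u => P *ᵥ u) hv
    simp only [Matrix.mulVec_mulVec, Matrix.mulVec_smul] at h2
    rw [Matrix.mulVec_mulVec, ← h2, ← Matrix.mul_assoc, ← Matrix.mul_assoc,
      Matrix.mul_nonsing_inv _ hP, Matrix.one_mul]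
  have h3 : (J.op (fun c => fK s c • 1)) (P *ᵥ v) = μ • (P *ᵥ v) := by
    rw [← slopM_toLin, Matrix.toLin'_apply, h1]
  obtain ⟨q, hq⟩ : ∃ q, J.e.repr (P *ᵥ v) q ≠ 0 := by
    by_contra h
    push Not at h
    apply hPv
    have h4 : J.e.repr (P *ᵥ v) = 0 := Finsupp.ext h
    exact (LinearEquiv.map_eq_zero_iff J.e.repr).1 h4
  obtain ⟨z, hz, hz'⟩ := hs q
  refine ⟨z, hz, ?_⟩
  rw [← hz']
  have h4 : J.e.repr ((J.op (fun c => fK s c • 1)) (P *ᵥ v)) q =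
      fK s (J.lam q) * J.e.repr (P *ᵥ v) q := by
    conv_lhs => rw [← J.e.sum_repr (P *ᵥ v)]
    rw [map_sum, map_sum, Finsupp.finsetSum_apply, Finset.sum_eq_single q]
    · rw [map_smul, J.op_on _ (J.mem q), map_smul, Finsupp.smul_apply, LinearMap.smul_apply,
        Module.End.one_apply, map_smul, Finsupp.smul_apply, J.e.repr_self, Finsupp.single_eq_same,
        smul_eq_mul, smul_eq_mul]
      ring
    · intro q' _ hq'
      rw [map_smul, J.op_on _ (J.mem q'), map_smul, Finsupp.smul_apply, LinearMap.smul_apply,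
        Module.End.one_apply, map_smul, Finsupp.smul_apply, J.e.repr_self,
        Finsupp.single_eq_of_ne (Ne.symm hq'), smul_zero, smul_zero]
    · intro h
      exact absurd (Finset.mem_univ _) h
  rw [h3, map_smul, Finsupp.smul_apply, smul_eq_mul] at h4
  exact mul_right_cancel₀ hq h4

end Pool.Agent.E8helper56.TY
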