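import Pool.Agent.E8helper56.TY.All
import Pool.Agent.E8helper56.TY.Defs
import Pool.Agent.E8helper56.TX.LieL2
import Pool.Agent.E8helper63.TX.Dim

set_option autoImplicit false
set_option linter.unusedSectionVars false

/-!
# The system of the Tate tensors over the complex numbers
-/

open Matrix Module

noncomputable section

namespace Pool.Agent.E8helper56.TY

open Pool.Agent.E8helper1.TX Pool.Agent.E8helper56.TX Pool.Agent.E8helper41.TX
open Pool.Agent.E8helper63.TX (t_DIM3 t_DIM5)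
open Pool.Agent.H204R3.SP (IsTate lieT)
open Pool.Agent.E8helper1.CT

/-- the centralizer -/
def cS {K N : Type} [Field K] [Fintype N] [DecidableEq N] (Y : Set (Matrix N N K)) :
    Submodule K (Matrix N N K) where
  carrier := {M | ∀ y ∈ Y, M * y = y * M}
  zero_mem' := by
    intro y _
    rw [Matrix.zero_mul, Matrix.mul_zero]
  add_mem' := by
    intro A B hA hB y hy
    rw [Matrix.add_mul, Matrix.mul_add, hA y hy, hB y hy]
  smul_mem' := by
    intro c A hA y hy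
    rw [Matrix.smul_mul, Matrix.mul_smul, hA y hy]

section gen

variable {K : Type} [Field K] {n : Type} [Fintype n] [DecidableEq n] {Γ : Type} [Group Γ]

theorem exists_t1 (M : Matrix (Fin 1 → n) (Fin 1 → n) K) : ∃ a, M = tpowK K a 1 := by
  refine ⟨fun i j => M (fun _ => i) (fun _ => j), ?_⟩
  ext I J
  have h : ∀ I : Fin 1 → n, (fun _ => I 0) = I := fun I => funext fun i => by
    rw [Subsingleton.elim i 0]
  unfold tpowK
  rw [Fin.prod_univ_one]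
  change M I J = M (fun _ => I 0) (fun _ => J 0)
  rw [h, h]

theorem t1_inj {a b : Matrix n n K} (h : tpowK K a 1 = tpowK K b 1) : a = b := by
  ext i j
  have h1 := congrFun (congrFun h (fun _ => i)) (fun _ => j)
  unfold tpowK at h1
  rwa [Fin.prod_univ_one, Fin.prod_univ_one] at h1

theorem isPot_of {R : Γ →* Matrix n n K} {p a : Matrix n n K} (h : tpowK K a 1 ∈ PotOp R p 1) :
    IsPot R p a := by
  obtain ⟨⟨Δ, hΔ, h1⟩, h2⟩ := h
  refine ⟨⟨Δ, hΔ, fun g hg => t1_inj ?_⟩, t1_inj ?_⟩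
  · rw [tpowK_mul, tpowK_mul, h1 g hg]
  · rw [tpowK_mul, tpowK_mul, h2]

end gen

variable {ℓ : ℕ} [Fact ℓ.Prime] {n : Type} [Fintype n] [DecidableEq n] {Γ : Type} [Group Γ]
  {m : ℕ}

/-- The tensors which commute with the Lie algebra of all Tate tensors. -/
theorem t_LIE2s (D : GalData ℓ n Γ) (m : ℕ) (M : Matrix (Fin m → n) (Fin m → n) ℚ_[ℓ])
    (hM : ∀ x : Matrix n n ℚ_[ℓ],
      (∀ k, ∀ A ∈ PotOp D.R D.p k, A * dpowK _ x k = dpowK _ x k * A) →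
      M * dpowK _ x m = dpowK _ x m * M)
    (hMp : M * tpowK _ D.p m = tpowK _ D.p m * M) : M ∈ PotOp D.R D.p m := by
  obtain ⟨Δ, hΔ, hneat⟩ := exists_neat (lattice_tpow D.lattice m)
  refine ⟨⟨Δ, hΔ, fun g hg => ?_⟩, hMp⟩
  have hk : ∀ z ∈ lieT (mrep D.R) (1 : Γ →* ℚ_[ℓ]),
      Pool.Agent.H204R3.SP.Kills z (frm (tpowK _ D.B m * M)) := by
    intro z hz
    obtain ⟨h1, h2⟩ := lieT_comm D hz
    have h3 := (kill_iff D.B_unit h2 M).2 (hM _ h1)
    rwa [Matrix.toLin'_toMatrix'] at h3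
  obtain ⟨j, hj, h⟩ := tors_form (AlgebraicClosure ℚ_[ℓ]) hk g
  have hR : (D.R g) ^ j = D.R (g ^ j) := (map_pow D.R g j).symm
  have h1 : M * tpowK _ ((D.R g) ^ j) m = tpowK _ ((D.R g) ^ j) m * M := by
    refine (inv_iff D.B_unit (by rw [hR]; exact D.B_inv _) M).1 fun v => ?_
    rw [← h v]
    congr 1
    funext l
    rw [hR, ← map_pow]
    rfl
  have h2 := hneat g hg (Matrix.toLin' M) j hj (by
    refine LinearMap.ext fun v => ?_
    rw [Module.End.mul_apply, Module.End.mul_apply, ← map_pow, mrep_apply, mrep_apply,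
      Matrix.toLin'_apply, Matrix.toLin'_apply, Matrix.mulVec_mulVec, Matrix.mulVec_mulVec, map_pow]
    change (M * (tpowK _ (D.R g) m) ^ j) *ᵥ v = ((tpowK _ (D.R g) m) ^ j * M) *ᵥ v
    rw [← tpowK_pow, h1])
  have h3 := congrArg LinearMap.toMatrix' h2
  rw [Module.End.mul_eq_comp, Module.End.mul_eq_comp, LinearMap.toMatrix'_comp,
    LinearMap.toMatrix'_comp, LinearMap.toMatrix'_toLin'] at h3
  have h4 : LinearMap.toMatrix' (mrep (tpowHom D.R m) g) = tpowK _ (D.R g) m :=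
    LinearMap.toMatrix'_toLin' _
  rw [h4] at h3
  exact h3

variable [Algebra ℚ_[ℓ] ℂ]

/-- the complex matrix in the new basis -/
def cj (P : Matrix n n ℂ) (g : Matrix n n ℚ_[ℓ]) : Matrix n n ℂ :=
  P⁻¹ * g.map (algebraMap ℚ_[ℓ] ℂ) * P

variable {P : Matrix n n ℂ}

theorem cj_mul (hP : IsUnit P.det) (g h : Matrix n n ℚ_[ℓ]) : cj P (g * h) = cj P g * cj P h := by
  unfold cj
  rw [map_mul']
  calc _ = P⁻¹ * g.map (algebraMap ℚ_[ℓ] ℂ) * 1 * h.map (algebraMap ℚ_[ℓ] ℂ) * P := by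
        rw [Matrix.mul_one]
        simp only [Matrix.mul_assoc]
    _ = _ := by
        rw [← Matrix.mul_nonsing_inv P hP]
        simp only [Matrix.mul_assoc]

theorem cj_one (hP : IsUnit P.det) : cj P (1 : Matrix n n ℚ_[ℓ]) = 1 := by
  unfold cj
  rw [Matrix.map_one _ (map_zero _) (map_one _), Matrix.mul_one, Matrix.nonsing_inv_mul _ hP]

theorem cj_tpowK (g : Matrix n n ℚ_[ℓ]) :
    cjm P m ((tpowK _ g m).map (algebraMap ℚ_[ℓ] ℂ)) = tpow (cj P g) m := by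
  rw [tpowK_map, cjm_tpow]
  rfl

theorem cj_dpowK (hP : IsUnit P.det) (g : Matrix n n ℚ_[ℓ]) :
    cjm P m ((dpowK _ g m).map (algebraMap ℚ_[ℓ] ℂ)) = dpow (cj P g) m := by
  rw [dpowK_map, cjm_dpow hP]
  rfl

/-- **The Tate tensors** over the complex numbers. -/
theorem mem_TC_iff (hP : IsUnit P.det) (D : GalData ℓ n Γ) (A : Op n m) :
    A ∈ TC D P m ↔ (∃ Δ : Subgroup Γ, Δ.FiniteIndex ∧ ∀ g ∈ Δ,
      A * tpow (cj P (D.R g)) m = tpow (cj P (D.R g)) m * A) ∧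
      A * tpow (cj P D.p) m = tpow (cj P D.p) m * A := by
  constructor
  · rintro ⟨B, hB, rfl⟩
    refine Submodule.span_induction (p := fun B _ => (∃ Δ : Subgroup Γ, Δ.FiniteIndex ∧ ∀ g ∈ Δ,
      cjm P m B * tpow (cj P (D.R g)) m = tpow (cj P (D.R g)) m * cjm P m B) ∧
      cjm P m B * tpow (cj P D.p) m = tpow (cj P D.p) m * cjm P m B) ?_ ?_ ?_ ?_ hB
    · rintro _ ⟨M, ⟨⟨Δ, hΔ, h1⟩, h2⟩, rfl⟩
      refine ⟨⟨Δ, hΔ, fun g hg => ?_⟩, ?_⟩
      · rw [← cj_tpowK, cjm_comm hP, ← map_mul', ← map_mul', h1 g hg]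
      · rw [← cj_tpowK, cjm_comm hP, ← map_mul', ← map_mul', h2]
    · rw [map_zero]
      exact ⟨⟨⊤, inferInstance, fun g _ => by rw [Matrix.zero_mul, Matrix.mul_zero]⟩, by
        rw [Matrix.zero_mul, Matrix.mul_zero]⟩
    · rintro x y _ _ ⟨⟨Δ, hΔ, h1⟩, h2⟩ ⟨⟨Δ', hΔ', h1'⟩, h2'⟩
      rw [map_add]
      refine ⟨⟨Δ ⊓ Δ', inferInstance, fun g hg => ?_⟩, ?_⟩
      · rw [Matrix.add_mul, Matrix.mul_add, h1 g hg.1, h1' g hg.2]
      · rw [Matrix.add_mul, Matrix.mul_add, h2, h2']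
    · rintro c x _ ⟨⟨Δ, hΔ, h1⟩, h2⟩
      rw [map_smul]
      refine ⟨⟨Δ, hΔ, fun g hg => ?_⟩, ?_⟩
      · rw [Matrix.smul_mul, Matrix.mul_smul, h1 g hg]
      · rw [Matrix.smul_mul, Matrix.mul_smul, h2]
  · rintro ⟨⟨Δ, hΔ, h1⟩, h2⟩
    let A0 : Op n m := tpow P m * A * tpow P⁻¹ m
    have hcj : cjm P m A0 = A := cjm_back hP A
    let Y : Set (Matrix (Fin m → n) (Fin m → n) ℚ_[ℓ]) :=
      {y | (∃ g ∈ Δ, y = tpowK _ (D.R g) m) ∨ y = tpowK _ D.p m}
    have h3 : A0 ∈ bcM ℚ_[ℓ] (cS Y) := by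
      refine t_DIM3 ℚ_[ℓ] (Fin m → n) Y (cS Y) (fun _ => Iff.rfl) A0 ?_
      rintro y (⟨g, hg, rfl⟩ | rfl)
      · rw [← cjm_comm hP, cj_tpowK, hcj]
        exact h1 g hg
      · rw [← cjm_comm hP, cj_tpowK, hcj]
        exact h2
    have h4 : cS Y ≤ PotOp D.R D.p m := by
      intro M hM
      exact ⟨⟨Δ, hΔ, fun g hg => hM _ (Or.inl ⟨g, hg, rfl⟩)⟩, hM _ (Or.inr rfl)⟩
    rw [← hcj]
    exact Submodule.mem_map_of_mem (bcM_mono h4 h3)

theorem tpow_add_deg (g : Matrix n n ℂ) (k j : ℕ) :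
    tpow g (k + j) = tens (tpow g k) (tpow g j) := by
  ext I J
  simp only [tens, tpow]
  rw [Fin.prod_univ_add]

theorem TC_tens (hP : IsUnit P.det) (D : GalData ℓ n Γ) (k j : ℕ) (A : Op n k)
    (hA : A ∈ TC D P k) : tens A (1 : Op n j) ∈ TC D P (k + j) := by
  rw [mem_TC_iff hP] at hA ⊢
  obtain ⟨⟨Δ, hΔ, h1⟩, h2⟩ := hA
  refine ⟨⟨Δ, hΔ, fun g hg => ?_⟩, ?_⟩
  · rw [tpow_add_deg, tens_mul', tens_mul', h1 g hg, Matrix.mul_one, Matrix.one_mul]
  · rw [tpow_add_deg, tens_mul', tens_mul', h2, Matrix.mul_one, Matrix.one_mul]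

theorem mem_TC_one (hP : IsUnit P.det) (D : GalData ℓ n Γ) (z : Matrix n n ℂ) :
    o1 z ∈ TC D P 1 ↔ (∃ Δ : Subgroup Γ, Δ.FiniteIndex ∧ ∀ g ∈ Δ,
      z * cj P (D.R g) = cj P (D.R g) * z) ∧ z * cj P D.p = cj P D.p * z := by
  have hinj : ∀ a b : Matrix n n ℂ, o1 a = o1 b ↔ a = b := by
    intro a b
    rw [← tpow_one1, ← tpow_one1]
    exact ⟨fun h => t1_inj h, fun h => by rw [h]⟩
  rw [mem_TC_iff hP]
  simp only [tpow_one1, o1_mul, hinj]

theorem TC_p (hP : IsUnit P.det) (D : GalData ℓ n Γ) : o1 (cj P D.p) ∈ TC D P 1 := by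
  rw [mem_TC_one hP]
  refine ⟨⟨⊤, inferInstance, fun g _ => ?_⟩, rfl⟩
  rw [← cj_mul hP, ← cj_mul hP, D.p_comm]

theorem TC_fixes (hP : IsUnit P.det) (D : GalData ℓ n Γ) : Fixes (TC D P) (cj P D.p) := by
  intro m A hA
  exact ((mem_TC_iff hP D A).1 hA).2

/-- elements of the Lie algebra over the `ℓ`-adic numbers -/
theorem cj_ann (hP : IsUnit P.det) (D : GalData ℓ n Γ) {x : Matrix n n ℚ_[ℓ]}
    (hx : ∀ k, ∀ A ∈ PotOp D.R D.p k, A * dpowK _ x k = dpowK _ x k * A) :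
    cj P x ∈ Ann (TC D P) := by
  rintro k _ ⟨B, hB, rfl⟩
  rw [← cj_dpowK hP, cjm_comm hP]
  refine comm_bcM ?_ B hB
  intro M hM
  rw [← map_mul', ← map_mul', hx k M hM]

theorem TC_L2 (hP : IsUnit P.det) (D : GalData ℓ n Γ) (m : ℕ) (A : Op n m)
    (h : ∀ x ∈ Ann (TC D P), A * dpow x m = dpow x m * A)
    (hp : A * tpow (cj P D.p) m = tpow (cj P D.p) m * A) : A ∈ TC D P m := by
  let A0 : Op n m := tpow P m * A * tpow P⁻¹ m
  have hcj : cjm P m A0 = A := cjm_back hP A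
  let Y : Set (Matrix (Fin m → n) (Fin m → n) ℚ_[ℓ]) :=
    {y | (∃ x : Matrix n n ℚ_[ℓ], (∀ k, ∀ B ∈ PotOp D.R D.p k, B * dpowK _ x k = dpowK _ x k * B) ∧
      y = dpowK _ x m) ∨ y = tpowK _ D.p m}
  have h3 : A0 ∈ bcM ℚ_[ℓ] (cS Y) := by
    refine t_DIM3 ℚ_[ℓ] (Fin m → n) Y (cS Y) (fun _ => Iff.rfl) A0 ?_
    rintro y (⟨x, hx, rfl⟩ | rfl)
    · rw [← cjm_comm hP, cj_dpowK hP, hcj]
      exact h _ (cj_ann hP D hx)
    · rw [← cjm_comm hP, cj_tpowK, hcj]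
      exact hp
  have h4 : cS Y ≤ PotOp D.R D.p m := by
    intro M hM
    exact t_LIE2s D m M (fun x hx => hM _ (Or.inl ⟨x, hx, rfl⟩)) (hM _ (Or.inr rfl))
  rw [← hcj]
  exact Submodule.mem_map_of_mem (bcM_mono h4 h3)

theorem TC_L1 (hP : IsUnit P.det) (D : GalData ℓ n Γ) (x : Matrix n n ℂ)
    (hx : ∀ A ∈ TC D P 2, A * dpow x 2 = dpow x 2 * A) :
    ∃ (y z : Matrix n n ℂ) (c : ℂ), x = y + z + c • 1 ∧ y ∈ Ann (TC D P) ∧ o1 z ∈ TC D P 1 ∧
      ∀ a, o1 a ∈ TC D P 1 → z * a = a * z := by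
  let C : Submodule ℚ_[ℓ] (Matrix n n ℚ_[ℓ]) :=
    { carrier := {x | ∀ A ∈ PotOp D.R D.p 2, A * dpowK _ x 2 = dpowK _ x 2 * A}
      zero_mem' := by
        intro A _
        have h : dpowK ℚ_[ℓ] (0 : Matrix n n ℚ_[ℓ]) 2 = 0 := by
          ext I J
          simp [dpowK]
        rw [h, Matrix.mul_zero, Matrix.zero_mul]
      add_mem' := by
        intro x y hx hy A hA
        have h : dpowK ℚ_[ℓ] (x + y) 2 = dpowK ℚ_[ℓ] x 2 + dpowK ℚ_[ℓ] y 2 := by
          ext I J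
          simp only [dpowK, Matrix.add_apply]
          rw [← Finset.sum_add_distrib]
          refine Finset.sum_congr rfl fun i _ => ?_
          split_ifs
          · rfl
          · rw [add_zero]
        rw [h, Matrix.mul_add, Matrix.add_mul, hx A hA, hy A hA]
      smul_mem' := by
        intro c x hx A hA
        have h : dpowK ℚ_[ℓ] (c • x) 2 = c • dpowK ℚ_[ℓ] x 2 := by
          ext I J
          simp only [dpowK, Matrix.smul_apply, smul_eq_mul]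
          rw [Finset.mul_sum]
          refine Finset.sum_congr rfl fun i _ => ?_
          split_ifs
          · rfl
          · rw [mul_zero]
        rw [h, Matrix.mul_smul, Matrix.smul_mul, hx A hA] }
  have h1 : ∀ A ∈ bcM ℚ_[ℓ] (PotOp D.R D.p 2),
      A * dpow (P * x * P⁻¹) 2 = dpow (P * x * P⁻¹) 2 * A := by
    intro A hA
    rw [← cjm_comm hP, cjm_dpow hP, back hP]
    exact hx _ (Submodule.mem_map_of_mem hA)
  have h2 : P * x * P⁻¹ ∈ bcM ℚ_[ℓ] C :=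
    t_DIM5 ℚ_[ℓ] n (PotOp D.R D.p 2) C (fun _ => Iff.rfl) _ h1
  have h3 : ∀ x' ∈ bcM ℚ_[ℓ] C, ∃ (y z : Matrix n n ℂ) (c : ℂ), P⁻¹ * x' * P = y + z + c • 1 ∧
      y ∈ Ann (TC D P) ∧ o1 z ∈ TC D P 1 ∧ ∀ a, o1 a ∈ TC D P 1 → z * a = a * z := by
    intro x' hx'
    refine Submodule.span_induction (p := fun x' _ => ∃ (y z : Matrix n n ℂ) (c : ℂ),
      P⁻¹ * x' * P = y + z + c • 1 ∧
      y ∈ Ann (TC D P) ∧ o1 z ∈ TC D P 1 ∧ ∀ a, o1 a ∈ TC D P 1 → z * a = a * z) ?_ ?_ ?_ ?_ hx'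
    · rintro _ ⟨x0, hx0, rfl⟩
      obtain ⟨y, z, c, hxyz, hy, -, hz, hzc, -⟩ := t_LIE1' ℓ n Γ D x0 hx0
      refine ⟨cj P y, cj P z, algebraMap ℚ_[ℓ] ℂ c, ?_, cj_ann hP D hy, ?_, fun a ha => ?_⟩
      · change cj P x0 = _
        have e1 : cj P x0 = cj P y + cj P z + cj P (c • (1 : Matrix n n ℚ_[ℓ])) := by
          rw [hxyz]
          unfold cj
          rw [Matrix.map_add _ (map_add _), Matrix.map_add _ (map_add _), Matrix.mul_add,
            Matrix.mul_add, Matrix.add_mul, Matrix.add_mul]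
        have e2 : cj P (c • (1 : Matrix n n ℚ_[ℓ])) = algebraMap ℚ_[ℓ] ℂ c • 1 := by
          unfold cj
          have e3 : (c • (1 : Matrix n n ℚ_[ℓ])).map (algebraMap ℚ_[ℓ] ℂ) =
              algebraMap ℚ_[ℓ] ℂ c • 1 := by
            ext i j
            rw [Matrix.map_apply, Matrix.smul_apply, Matrix.smul_apply, smul_eq_mul, map_mul,
              smul_eq_mul, Matrix.one_apply, Matrix.one_apply]
            split_ifs
            · rw [map_one]
            · rw [map_zero]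
          rw [e3, Matrix.mul_smul, Matrix.smul_mul, Matrix.mul_one, Matrix.nonsing_inv_mul _ hP]
        rw [e1, e2]
      · rw [mem_TC_one hP]
        obtain ⟨⟨Δ, hΔ, h4⟩, h5⟩ := hz
        refine ⟨⟨Δ, hΔ, fun g hg => ?_⟩, ?_⟩
        · rw [← cj_mul hP, ← cj_mul hP, h4 g hg]
        · rw [← cj_mul hP, ← cj_mul hP, h5]
      · obtain ⟨B, hB, hBa⟩ := ha
        have h4 : o1 a * o1 (cj P z) = o1 (cj P z) * o1 a := by
          rw [← hBa, ← tpow_one1 (cj P z), ← cj_tpowK, cjm_comm hP]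
          refine comm_bcM ?_ B hB
          intro M hM
          obtain ⟨a', rfl⟩ := exists_t1 M
          rw [← map_mul', ← map_mul', ← tpowK_mul, ← tpowK_mul, hzc a' (isPot_of hM)]
        rw [o1_mul, o1_mul, ← tpow_one1, ← tpow_one1] at h4
        exact (t1_inj h4).symm
    · refine ⟨0, 0, 0, ?_, Submodule.zero_mem _, ?_, fun a _ => ?_⟩
      · rw [Matrix.mul_zero, Matrix.zero_mul, zero_smul, add_zero, add_zero]
      · rw [mem_TC_one hP]
        exact ⟨⟨⊤, inferInstance, fun g _ => by rw [Matrix.mul_zero, Matrix.zero_mul]⟩, by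
          rw [Matrix.mul_zero, Matrix.zero_mul]⟩
      · rw [Matrix.mul_zero, Matrix.zero_mul]
    · rintro x1 x2 _ _ ⟨y, z, c, e1, e2, e3, e4⟩ ⟨y', z', c', e1', e2', e3', e4'⟩
      refine ⟨y + y', z + z', c + c', ?_, Submodule.add_mem _ e2 e2', ?_, fun a ha => ?_⟩
      · rw [Matrix.mul_add, Matrix.add_mul, e1, e1', add_smul]
        abel
      · have h4 : o1 (z + z') = o1 z + o1 z' := rfl
        rw [h4]
        exact Submodule.add_mem _ e3 e3'
      · rw [Matrix.add_mul, Matrix.mul_add, e4 a ha, e4' a ha]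
    · rintro b x1 _ ⟨y, z, c, e1, e2, e3, e4⟩
      refine ⟨b • y, b • z, b * c, ?_, Submodule.smul_mem _ _ e2, ?_, fun a ha => ?_⟩
      · rw [Matrix.mul_smul, Matrix.smul_mul, e1, smul_add, smul_add, smul_smul]
      · have h4 : o1 (b • z) = b • o1 z := rfl
        rw [h4]
        exact Submodule.smul_mem _ _ e3
      · rw [Matrix.smul_mul, Matrix.mul_smul, e4 a ha]
  have h4 := h3 _ h2
  rwa [back hP] at h4

end Pool.Agent.E8helper56.TY
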