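import Mathlib

set_option autoImplicit false

/-!
# Valuations of a number field as additive maps
-/

open IsDedekindDomain NumberField

noncomputable section

namespace Pool.Agent.E8helper56.TY

variable {L : Type} [Field L] [NumberField L] (v : HeightOneSpectrum (𝓞 L))

/-- the order at a prime -/
def ordv : Additive Lˣ →+ ℤ :=
  -(MonoidHom.toAdditive (v.valuationOfNeZero (K := L)) : Additive Lˣ →+ ℤ)

theorem ordv_eq (x : Lˣ) : v.valuation L (x : L) = WithZero.exp (-(ordv v (Additive.ofMul x))) := by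
  rw [← HeightOneSpectrum.valuationOfNeZero_eq]
  have h : -(ordv v (Additive.ofMul x)) = Multiplicative.toAdd (v.valuationOfNeZero x) := by
    change -(-(Multiplicative.toAdd (v.valuationOfNeZero x))) = _
    rw [neg_neg]
  rw [h]
  rfl

theorem ordv_nonneg {x : Lˣ} (hx : IsIntegral ℤ (x : L)) : 0 ≤ ordv v (Additive.ofMul x) := by
  have h1 := v.valuation_le_one (K := L) (⟨x, hx⟩ : 𝓞 L)
  change v.valuation L (x : L) ≤ 1 at h1
  rw [ordv_eq, ← WithZero.exp_zero, WithZero.exp_le_exp] at h1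
  omega

theorem integral_of_ordv {x : Lˣ} (h : ∀ v : HeightOneSpectrum (𝓞 L),
    0 ≤ ordv v (Additive.ofMul x)) : IsIntegral ℤ (x : L) := by
  obtain ⟨y, hy⟩ := HeightOneSpectrum.mem_integers_of_valuation_le_one (R := 𝓞 L) (K := L) (x : L)
    (fun v => by
      rw [ordv_eq, ← WithZero.exp_zero, WithZero.exp_le_exp]
      have := h v
      omega)
  rw [← hy]
  exact y.2

/-- the order of a prime number -/
theorem ordv_prime {p : ℕ} (hp : p.Prime) {x : Lˣ} (hx : (x : L) = (p : L)) :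
    ordv v (Additive.ofMul x) ≤ Module.finrank ℚ L := by
  by_contra hlt
  rw [not_le] at hlt
  have hval := ordv_eq v x
  have h1 : v.intValuation ((p : ℕ) : 𝓞 L) ≤ WithZero.exp (-((Module.finrank ℚ L + 1 : ℕ) : ℤ)) := by
    have h2 := v.valuation_of_algebraMap (K := L) ((p : ℕ) : 𝓞 L)
    have h3 : algebraMap (𝓞 L) L ((p : ℕ) : 𝓞 L) = (x : L) := by
      rw [hx]
      exact map_natCast (algebraMap (𝓞 L) L) p
    change v.valuation L (algebraMap (𝓞 L) L ((p : ℕ) : 𝓞 L)) = _ at h2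
    rw [← h2, h3, hval, WithZero.exp_le_exp]
    push_cast
    omega
  rw [v.intValuation_le_pow_iff_dvd] at h1
  have h2 := Ideal.absNorm_dvd_absNorm_of_le (Ideal.le_of_dvd h1)
  rw [map_pow, Ideal.absNorm_span_singleton] at h2
  have h3 : (Algebra.norm ℤ ((p : ℕ) : 𝓞 L)).natAbs = p ^ Module.finrank ℚ L := by
    have h4 := Algebra.norm_algebraMap_of_basis (RingOfIntegers.basis L) ((p : ℕ) : ℤ)
    have h5 : algebraMap ℤ (𝓞 L) ((p : ℕ) : ℤ) = ((p : ℕ) : 𝓞 L) := by simp
    rw [h5] at h4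
    rw [h4, Int.natAbs_pow, Int.natAbs_natCast]
    congr 1
    rw [← RingOfIntegers.rank L, Module.finrank_eq_card_basis (RingOfIntegers.basis L)]
  rw [h3] at h2
  obtain ⟨k, hk1, hk2⟩ := (Nat.dvd_prime_pow hp).1
    ((dvd_pow_self _ (Nat.succ_ne_zero _)).trans h2)
  rw [hk2] at h2
  have hk0 : k ≠ 0 := by
    rintro rfl
    rw [pow_zero, Ideal.absNorm_eq_one_iff] at hk2
    exact v.isPrime.ne_top hk2
  rw [← pow_mul, Nat.pow_dvd_pow_iff_le_right hp.one_lt] at h2
  have h6 : 1 * (Module.finrank ℚ L + 1) ≤ k * (Module.finrank ℚ L + 1) :=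
    Nat.mul_le_mul_right _ (Nat.one_le_iff_ne_zero.2 hk0)
  omega

/-- Extension of an additive map to the complex numbers. -/
theorem exists_ext (ι₀ : L →+* ℂ) (f : Additive Lˣ →+ ℂ) :
    ∃ s : Additive ℂˣ →+ ℂ, ∀ x : Lˣ, s (Additive.ofMul (Units.map (ι₀ : L →* ℂ) x)) =
      f (Additive.ofMul x) := by
  obtain ⟨s, hs⟩ := (Module.Baer.of_divisible ℂ).extension_property_addMonoidHom
    (MonoidHom.toAdditive (Units.map (ι₀ : L →* ℂ)))
    (by
      intro x y hxy
      have h1 := Units.map_injective (f := (ι₀ : L →* ℂ)) ι₀.injective hxy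
      exact h1) f
  exact ⟨s, fun x => congrArg (fun h : Additive Lˣ →+ ℂ => h (Additive.ofMul x)) hs⟩

end Pool.Agent.E8helper56.TY
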